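import Pool.Agent.N908.FR2.Quat

/-!
Quaternionic structures with `-1 = 1`: descent to structures without rigid elements and without
radical.
-/

set_option autoImplicit false

open Module

namespace Pool.Agent.N908.FR2

open Pool.Agent.N908.FR Pool.Agent.H315R3.ETC Pool.Agent.Y920.ETC Pool.Agent.N88.FR

variable {S : QData}

/-- restriction of symbols to a subgroup of index two -/
theorem numSy_restr (h : IsQuat S) (hne : S.neg = 1) [Finite S.G] (K : Subgroup S.G)
    (hneg : S.neg ∈ K) (x : S.G) (hK : ∀ y : S.G, y ∈ K ∨ y * x ∈ K) {m : ℕ}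
    (hm : Nat.card K = 2 ^ m) (hq : IsQuat (restrN S K hneg)) :
    numSy S ≤ numSy (restrN S K hneg) * 2 ^ m := by
  classical
  let _ := vmod hq
  have hfV : Finite (Additive (restrN S K hneg).G) := inferInstanceAs (Finite K)
  have hfK : Finite (restrN S K hneg).G := inferInstanceAs (Finite K)
  have hd : Nat.card (Dual (ZMod 2) (Additive (restrN S K hneg).G)) = 2 ^ m := by
    rw [card_dual]
    exact hm
  rw [← hd, numSy, numSy, ← Nat.card_prod]
  have hf1 : Finite {χ : (restrN S K hneg).G → (restrN S K hneg).G → ZMod 2 //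
      IsSy (restrN S K hneg) χ} := inferInstance
  let F : {χ : S.G → S.G → ZMod 2 // IsSy S χ} →
      {χ : (restrN S K hneg).G → (restrN S K hneg).G → ZMod 2 // IsSy (restrN S K hneg) χ} ×
        Dual (ZMod 2) (Additive (restrN S K hneg).G) := fun χ =>
    (⟨fun (a b : K) => χ.1 a.1 b.1, fun (a b c : K) => χ.2.1 a.1 b.1 c.1,
      fun (a b c : K) => χ.2.2.1 a.1 b.1 c.1, fun (a b : K) hab => χ.2.2.2 a.1 b.1 hab⟩,
      AddMonoidHom.toZModLinearMap 2
        (AddMonoidHom.mk' (fun z => χ.1 x (Additive.toMul z : K).1) fun y z => χ.2.2.1 _ _ _))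
  refine Nat.card_le_card_of_injective F ?_
  intro χ χ' he
  have e1 : ∀ a b : K, χ.1 a.1 b.1 = χ'.1 a.1 b.1 := fun a b =>
    congrFun (congrFun (congrArg (fun p => p.1.1) he) a) b
  have e2 : ∀ a : K, χ.1 x a.1 = χ'.1 x a.1 := fun a =>
    congrArg (fun p => p.2 (Additive.ofMul a)) he
  have one : ∀ (ψ : {χ : S.G → S.G → ZMod 2 // IsSy S χ}) (a : S.G), ψ.1 a a = 0 := by
    intro ψ a
    refine ψ.2.2.2 a a ?_
    have := h.qs1 a
    rwa [hne, one_mul] at this
  have comm : ∀ (ψ : {χ : S.G → S.G → ZMod 2 // IsSy S χ}) (a b : S.G), ψ.1 a b = ψ.1 b a := by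
    intro ψ a b
    have h1 := one ψ (a * b)
    rw [ψ.2.1, ψ.2.2.1, ψ.2.2.1, one ψ a, one ψ b, zero_add, add_zero] at h1
    rw [← sub_eq_zero, ZModModule.sub_eq_add]
    exact h1
  have dec : ∀ y : S.G, ∃ k : K, y = k.1 ∨ y = k.1 * x := by
    intro y
    rcases hK y with hy | hy
    · exact ⟨⟨y, hy⟩, Or.inl rfl⟩
    · exact ⟨⟨y * x, hy⟩, Or.inr (by rw [mul_assoc, h.exp2, mul_one])⟩
  apply Subtype.ext
  funext a b
  obtain ⟨k, rfl | rfl⟩ := dec a <;> obtain ⟨l, rfl | rfl⟩ := dec b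
  · exact e1 k l
  · rw [χ.2.2.1, χ'.2.2.1, e1, comm χ k.1 x, comm χ' k.1 x, e2]
  · rw [χ.2.1, χ'.2.1, e1, e2]
  · rw [χ.2.1, χ'.2.1, χ.2.2.1, χ'.2.2.1, χ.2.2.1, χ'.2.2.1, e1, e2, one, one,
      comm χ k.1 x, comm χ' k.1 x, e2]

/-- a radical element splits off -/
theorem rad_split (h : IsQuat S) (hne : S.neg = 1) [Finite S.G] {a : S.G} (ha : a ≠ 1)
    (hrad : ∀ b, S.q a b = S.zero) :
    ∃ (K : Subgroup S.G) (hneg : S.neg ∈ K), IsQuat (restrN S K hneg) ∧ a ∉ K ∧
      (∀ y : S.G, y ∈ K ∨ y * a ∈ K) ∧ Iso (prod (restrN S K hneg) L10) S := by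
  have ha' : a ∉ (⊥ : Subgroup S.G) := fun e => ha (Subgroup.mem_bot.1 e)
  obtain ⟨K, -, haK, hK⟩ := split h.exp2 ⊥ a ha'
  have hneg : S.neg ∈ K := by rw [hne]; exact K.one_mem
  -- values of `q` do not change
  have e1 : ∀ u v : S.G, S.q u (v * a) = S.q u v := by
    intro u v
    rw [h.qs3]
    have : v * a * v = a := by rw [mul_comm v a, mul_assoc, h.exp2, mul_one]
    rw [this, h.qs2]
    exact hrad u
  have e2 : ∀ u v : S.G, S.q (u * a) v = S.q u v := by
    intro u v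
    rw [h.qs2, e1, h.qs2]
  have hqu : IsQuat (restrN S K hneg) := by
    refine ⟨fun a => Subtype.ext (h.exp2 a.1), fun a => h.qs1 _, fun a b => h.qs2 _ _,
      fun a b c => h.qs3 _ _ _, ?_⟩
    intro (b : K) (c : K) (d : K) (e : K) he
    obtain ⟨y, h1, h3⟩ := h.qs4 _ _ _ _ he
    rcases hK y with hy | hy
    · exact ⟨⟨y, hy⟩, h1, h3⟩
    · exact ⟨⟨y * a, hy⟩, h1.trans (e1 _ _).symm, h3.trans (e1 _ _).symm⟩
  refine ⟨K, hneg, hqu, haK, hK, phi h.exp2 K a haK hK, ?_, ?_⟩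
  · show (phi h.exp2 K a haK hK) ((⟨S.neg, hneg⟩ : K), (1 : C2)) = S.neg
    rw [phi_apply, xp_one, mul_one]
  · have e3 : ∀ u v : K × C2, S.q (phi h.exp2 K a haK hK u) (phi h.exp2 K a haK hK v) =
        S.q u.1.1 v.1.1 := by
      rintro ⟨u, α⟩ ⟨v, β⟩
      rw [phi_apply, phi_apply]
      show S.q (u.1 * xp a α) (v.1 * xp a β) = S.q u.1 v.1
      rcases C2_cases α with rfl | rfl <;> rcases C2_cases β with rfl | rfl
      · rw [xp_one, mul_one, mul_one]
      · rw [xp_one, xp_gen, mul_one, e1]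
      · rw [xp_one, xp_gen, mul_one, e2]
      · rw [xp_gen, e1, e2]
    intro (b : K × C2) (c : K × C2) (d : K × C2) (e : K × C2)
    show ((S.q b.1.1 c.1.1, ()) : S.Q × Unit) = (S.q d.1.1 e.1.1, ()) ↔
      S.q (phi h.exp2 K a haK hK b) (phi h.exp2 K a haK hK c) =
        S.q (phi h.exp2 K a haK hK d) (phi h.exp2 K a haK hK e)
    rw [e3, e3, Prod.mk_inj]
    exact ⟨fun h => h.1, fun h => ⟨h, rfl⟩⟩

/-- the descent -/
theorem desc (h : IsQuat S) (hne : S.neg = 1) [Finite S.G] (hc : ¬ Core S) :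
    ∃ (K : Subgroup S.G) (hneg : S.neg ∈ K), IsQuat (restrN S K hneg) ∧
      2 * Nat.card K = Nat.card S.G ∧
      (Iso (ext (restrN S K hneg)) S ∨ Iso (prod (restrN S K hneg) L10) S) ∧
      ∀ m : ℕ, Nat.card K = 2 ^ m → numSy S ≤ numSy (restrN S K hneg) * 2 ^ m := by
  rw [Core] at hc
  push Not at hc
  obtain ⟨a, ha, hcon⟩ := hc
  by_cases hr : ∃ b, S.q a b = S.zero ∧ b ≠ 1 ∧ b ≠ a
  · obtain ⟨K, hneg, h1, h2, h3, h4⟩ := rad_split h hne ha (hcon hr)
    exact ⟨K, hneg, h1, card_two h K a h2 h3, Or.inr h4, fun m hm =>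
      numSy_restr h hne K hneg a h3 hm h1⟩
  · push Not at hr
    have hHr : Hr S a := by
      intro e he
      by_cases h1 : e = 1
      · exact Or.inl h1
      · right
        rw [hne, one_mul]
        exact hr e he h1
    have hb : Bi S a := ⟨ha, by rwa [hne], hHr, by rw [hne, one_mul]; exact hHr⟩
    obtain ⟨B, hB⟩ := Pool.Agent.Y67.ET.t_BASIC S h
    have hbB : a ∉ B := fun hc => (hB a).1 hc hb
    obtain ⟨K, hBK, hbK, hK⟩ := split h.exp2 B a hbB
    have hneg : S.neg ∈ K := hBK ((hB _).2 fun hb => hb.2.1 rfl)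
    have hout : ∀ a : S.G, a ∉ K → Bi S a := fun a ha => by
      by_contra hc
      exact ha (hBK ((hB a).2 hc))
    obtain ⟨h1, h2⟩ := Pool.Agent.Y781.ET.t_EXT S h K a hneg hbK hK hout
    exact ⟨K, hneg, h1, card_two h K a hbK hK, Or.inl h2, fun m hm =>
      numSy_restr h hne K hneg a hK hm h1⟩

/-- iterated group extensions and products with the structure `L10` of order one -/
inductive Gen (T : QData) : QData → Prop
  | base : Gen T T
  | ext (S : QData) : Gen T S → Gen T (ext S)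
  | rad (S : QData) : Gen T S → Gen T (prod S L10)
  | iso (S S' : QData) : Gen T S → Iso S S' → Gen T S'

theorem Gen.elem {T S : QData} (hg : Gen T S) (hT : Elem T) : Elem S := by
  induction hg with
  | base => exact hT
  | ext S _ ih => exact Elem.ext S ih
  | rad S _ ih => exact Elem.prod S L10 ih Elem.l10
  | iso S S' _ hi ih => exact Elem.iso S S' ih hi

lemma choose_succ (m : ℕ) : (m + 1).choose 2 = m.choose 2 + m := by
  rw [Nat.choose_succ_succ' m 1, Nat.choose_one_right, add_comm]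

universe v

/-- the structure theorem -/
theorem gen_core : ∀ (n : ℕ) (S : QData), IsQuat S → S.neg = 1 → Nat.card S.G = 2 ^ n →
    ∃ (T : QData) (m : ℕ), Gen T S ∧ IsQuat T ∧ T.neg = 1 ∧ Nat.card T.G = 2 ^ m ∧ m ≤ n ∧
      Core T ∧ numSy S * 2 ^ m.choose 2 ≤ numSy T * 2 ^ n.choose 2 ∧
      ∀ (B : Type v) (_ : AddCommGroup B) (β : S.G → S.G → B), Pool.Agent.N88.ETC.Add S β →
        ∃ β' : T.G → T.G → B, Pool.Agent.N88.ETC.Add T β' := by
  intro n
  induction n with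
  | zero =>
    intro S h hne hn
    refine ⟨S, 0, Gen.base, h, hne, hn, le_rfl, ?_, le_rfl, fun B _ β hβ => ⟨β, hβ⟩⟩
    intro a ha
    rw [pow_zero] at hn
    have : Subsingleton S.G := (Nat.card_eq_one_iff_unique.1 hn).1
    exact absurd (Subsingleton.elim a 1) ha
  | succ n ih =>
    intro S h hne hn
    have hfin : Finite S.G := Nat.finite_of_card_ne_zero (by rw [hn]; positivity)
    by_cases hc : Core S
    · exact ⟨S, n + 1, Gen.base, h, hne, hn, le_rfl, hc, le_rfl, fun B _ β hβ => ⟨β, hβ⟩⟩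
    obtain ⟨K, hneg, h1, h2, h3, h4⟩ := desc h hne hc
    have hK : Nat.card K = 2 ^ n := by
      rw [hn, pow_succ] at h2
      omega
    obtain ⟨T, m, a1, a2, a3, a4, a5, a6, a7, a8⟩ := ih (restrN S K hneg) h1
      (Subtype.ext hne) hK
    refine ⟨T, m, ?_, a2, a3, a4, by omega, a6, ?_, fun B _ β hβ =>
      a8 B _ (fun a b => β a.1 b.1) ⟨hβ.two, fun a b c => hβ.mul a.1 b.1 c.1,
        fun a b c d => hβ.eq a.1 b.1 c.1 d.1⟩⟩
    · rcases h3 with h3 | h3
      · exact Gen.iso _ _ (Gen.ext _ a1) h3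
      · exact Gen.iso _ _ (Gen.rad _ a1) h3
    · calc numSy S * 2 ^ m.choose 2 ≤ numSy (restrN S K hneg) * 2 ^ n * 2 ^ m.choose 2 :=
            Nat.mul_le_mul_right _ (h4 n hK)
        _ = (numSy (restrN S K hneg) * 2 ^ m.choose 2) * 2 ^ n := by ring
        _ ≤ (numSy T * 2 ^ n.choose 2) * 2 ^ n := Nat.mul_le_mul_right _ a7
        _ = _ := by rw [choose_succ, pow_add]; ring

end Pool.Agent.N908.FR2
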