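import Pool.Agent.N908.FR2.Cov
import Pool.Agent.N908.FR2.Desc

/-!
Quaternionic structures with `-1 = 1`: bounds for the number of symbols.
-/

set_option autoImplicit false

open Module

namespace Pool.Agent.N908.FR2

open Pool.Agent.N908.FR Pool.Agent.H315R3.ETC Pool.Agent.Y920.ETC Pool.Agent.N88.FR

universe v

variable {S : QData}

/-- **structures whose value groups have index at least `2 ^ c`** -/
theorem index_bound2 (h : IsQuat S) (hne : S.neg = 1) {n : ℕ}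
    (hn : Nat.card S.G = 2 ^ n) {c : ℕ} (hc1 : 1 ≤ c)
    (hc : ∀ a : S.G, a ≠ 1 → (∃ b, S.q a b = S.zero ∧ b ≠ 1 ∧ b ≠ a) ∧
      2 ^ c * {b : S.G | S.q a b = S.zero}.ncard ≤ 2 ^ n) :
    2 ^ ((c + 1) * n) * numSy S ≤ 2 ^ (n.choose 2 + (3 * c ^ 2 + 5 * c + 3)) := by
  have hfin0 : Finite S.G := Nat.finite_of_card_ne_zero (by rw [hn]; positivity)
  letI := vmod h
  have hfin : Finite (Additive S.G) := inferInstanceAs (Finite S.G)
  obtain ⟨r, hr, hnum⟩ := numSy_mul h hne hn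
  have hp : 0 < numSy S := Pool.Agent.N88.FR.numSy_pos S
  have h2 : Nat.card (Additive S.G) = 2 ^ n := hn
  have h3 : (c + 1) * n ≤ kk c c + r := by
    rcases Nat.eq_zero_or_pos n with h0 | h0
    · rw [h0, mul_zero]
      exact Nat.zero_le _
    have hV : 2 ≤ Nat.card (Additive S.G) := by
      rw [h2]
      calc 2 = 2 ^ 1 := rfl
        _ ≤ 2 ^ n := Nat.pow_le_pow_right (by norm_num) h0
    have h1 := index_rel (V := Additive S.G) (rln h hne) hc1 hV (fun x hx => by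
      obtain ⟨b, b1, b2, b3⟩ := (hc x.toMul (fun e => hx e)).1
      exact ⟨Additive.ofMul b, b1, fun e => b2 e, fun e => b3 e⟩)
      (fun x hx => by
        rw [h2]
        exact (hc x.toMul (fun e => hx e)).2)
    rw [hr, h2, ← pow_mul, ← pow_add] at h1
    have := (Nat.pow_le_pow_iff_right (by norm_num : 1 < 2)).1 h1
    rwa [mul_comm] at this
  have hk : kk c c = 3 * c ^ 2 + 5 * c + 3 := by rw [kk]; ring
  rw [hk] at h3
  calc 2 ^ ((c + 1) * n) * numSy S ≤ 2 ^ (3 * c ^ 2 + 5 * c + 3 + r) * numSy S :=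
        Nat.mul_le_mul_right _ (Nat.pow_le_pow_right (by norm_num) h3)
    _ = numSy S * 2 ^ r * 2 ^ (3 * c ^ 2 + 5 * c + 3) := by rw [pow_add]; ring
    _ ≤ 2 ^ n.choose 2 * 2 ^ (3 * c ^ 2 + 5 * c + 3) := Nat.mul_le_mul_right _ hnum
    _ = _ := (pow_add _ _ _).symm

/-- the structure theorem, with the bound -/
theorem gen_small (h : IsQuat S) (hne : S.neg = 1) {n : ℕ} (hn : Nat.card S.G = 2 ^ n) :
    ∃ (T : QData) (m : ℕ), Gen T S ∧ IsQuat T ∧ T.neg = 1 ∧ Nat.card T.G = 2 ^ m ∧ Core T ∧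
      4 ^ m * numSy S ≤ 2 ^ (n.choose 2 + 5) ∧
      ∀ (B : Type v) (_ : AddCommGroup B) (β : S.G → S.G → B), Pool.Agent.N88.ETC.Add S β →
        ∃ β' : T.G → T.G → B, Pool.Agent.N88.ETC.Add T β' := by
  obtain ⟨T, m, a1, a2, a3, a4, a5, a6, a7, a8⟩ := gen_core.{v} n S h hne hn
  have hfin : Finite T.G := Nat.finite_of_card_ne_zero (by rw [a4]; positivity)
  refine ⟨T, m, a1, a2, a3, a4, a6, ?_, a8⟩
  have h1 := core_bound a2 a3 a4 a6
  have h2 : 2 ^ m.choose 2 * (4 ^ m * numSy S) ≤ 2 ^ m.choose 2 * 2 ^ (n.choose 2 + 5) := by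
    calc 2 ^ m.choose 2 * (4 ^ m * numSy S) = 4 ^ m * (numSy S * 2 ^ m.choose 2) := by ring
      _ ≤ 4 ^ m * (numSy T * 2 ^ n.choose 2) := Nat.mul_le_mul_left _ a7
      _ = 4 ^ m * numSy T * 2 ^ n.choose 2 := by ring
      _ ≤ 2 ^ (m.choose 2 + 5) * 2 ^ n.choose 2 := Nat.mul_le_mul_right _ h1
      _ = _ := by rw [pow_add, pow_add]; ring
  exact Nat.le_of_mul_le_mul_left h2 (by positivity)

lemma pow_bound {m n a : ℕ} (h1 : 4 ^ m * numSy S ≤ 2 ^ (n.choose 2 + 5))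
    (h2 : 2 ^ n.choose 2 ≤ 2 ^ a * numSy S) : 2 * m ≤ a + 5 := by
  have hp : 0 < 2 ^ n.choose 2 := by positivity
  have h3 : 2 ^ n.choose 2 * 4 ^ m ≤ 2 ^ n.choose 2 * 2 ^ (a + 5) := by
    calc 2 ^ n.choose 2 * 4 ^ m ≤ 2 ^ a * numSy S * 4 ^ m := Nat.mul_le_mul_right _ h2
      _ = 2 ^ a * (4 ^ m * numSy S) := by ring
      _ ≤ 2 ^ a * 2 ^ (n.choose 2 + 5) := Nat.mul_le_mul_left _ h1
      _ = _ := by rw [pow_add, pow_add]; ring
  have h4 := Nat.le_of_mul_le_mul_left h3 hp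
  have h5 : (4 : ℕ) ^ m = 2 ^ (2 * m) := by rw [pow_mul]; norm_num
  rw [h5] at h4
  exact (Nat.pow_le_pow_iff_right (by norm_num)).1 h4

/-- elementary type -/
theorem elem_many (h : IsQuat S) (hne : S.neg = 1) {n : ℕ} (hn : Nat.card S.G = 2 ^ n)
    (hs : 2 ^ n.choose 2 ≤ 16 * numSy S) : Elem S := by
  obtain ⟨T, m, a1, a2, a3, a4, a5, a6, -⟩ := gen_small.{0} h hne hn
  refine a1.elem ?_
  have hfin : Finite T.G := Nat.finite_of_card_ne_zero (by rw [a4]; positivity)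
  have h1 := pow_bound (a := 4) a6 (by norm_num; exact hs)
  refine Pool.Agent.N88.FR.elem_sixteen a2 ?_
  rw [a4]
  calc 2 ^ m ≤ 2 ^ 4 := Nat.pow_le_pow_right (by norm_num) (by omega)
    _ = 16 := by norm_num

/-- elementary type, additive case -/
theorem elem_many' (h : IsQuat S) (hne : S.neg = 1) {n : ℕ} (hn : Nat.card S.G = 2 ^ n)
    (hs : 2 ^ n.choose 2 ≤ 64 * numSy S) {B : Type v} [AddCommGroup B] {β : S.G → S.G → B}
    (hβ : Pool.Agent.N88.ETC.Add S β) : Elem S := by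
  obtain ⟨T, m, a1, a2, a3, a4, a5, a6, a7⟩ := gen_small.{v} h hne hn
  obtain ⟨β', hβ'⟩ := a7 B _ β hβ
  refine a1.elem ?_
  have hfin : Finite T.G := Nat.finite_of_card_ne_zero (by rw [a4]; positivity)
  have h1 := pow_bound (a := 6) a6 (by norm_num; exact hs)
  refine Pool.Agent.N88.FR.elem_thirtytwo a2 hβ' ?_
  rw [a4]
  calc 2 ^ m ≤ 2 ^ 5 := Nat.pow_le_pow_right (by norm_num) (by omega)
    _ = 32 := by norm_num

end Pool.Agent.N908.FR2
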