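import Pool.Agent.N908.FR2.Big

/-!
The case of small value groups: an average over all linear forms.
-/

set_option autoImplicit false

open Module Submodule Finset

namespace Pool.Agent.N908.FR2

open Pool.Agent.N908.FR

variable {V : Type*} [AddCommGroup V] [Module (ZMod 2) V] {E : V → V → Prop}

/-- good pairs -/
def Gd (E : V → V → Prop) (x x' : V) : Prop :=
  ∃ y y', E x y ∧ E x' y' ∧ y' ≠ 0 ∧ y' ≠ x' ∧ y ∉ span (ZMod 2) {x, x', y'}

/-- `x` lies in the image of the contraction with `f` -/
def AA (E : V → V → Prop) (f : Dual (ZMod 2) V) (x : V) : Prop := f x = 0 ∧ ∃ y, E x y ∧ f y = 1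

/-- there is a relation `x ∧ y` in the kernel of `f` -/
def BB (E : V → V → Prop) (f : Dual (ZMod 2) V) (x : V) : Prop :=
  x ≠ 0 ∧ f x = 0 ∧ ∃ y, E x y ∧ f y = 0 ∧ y ≠ 0 ∧ y ≠ x

lemma span3_cases {a b c y : V} (h : y ∈ span (ZMod 2) {a, b, c}) :
    y ∈ span (ZMod 2) {b, c} ∨ y + a ∈ span (ZMod 2) {b, c} := by
  rw [mem_span_insert] at h
  obtain ⟨c', u, hu, rfl⟩ := h
  rcases c01 c' with h1 | h1
  · left; rwa [h1, zero_smul, zero_add]
  · right
    rw [h1, one_smul, add_comm a u, add_cancel']
    exact hu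

/-- the elements which are not good for a given one lie in two value groups -/
theorem bad_sub (hE : Rln E) (hnr : ∀ x : V, x ≠ 0 → ∃ y, E x y ∧ y ≠ 0 ∧ y ≠ x) {x' : V}
    (hx' : x' ≠ 0) : ∃ u v : V, u ≠ 0 ∧ v ≠ 0 ∧ ∀ x, ¬ Gd E x x' → E u x ∨ E v x := by
  obtain ⟨y', a1, a2, a3⟩ := hnr x' hx'
  by_cases hb : ∀ z, E x' z → z ∈ span (ZMod 2) {x', y'}
  · refine ⟨y', x' + y', a2, ?_, ?_⟩
    · intro h
      exact a3 (by rw [← add_cancel' y' x', add_comm y' x', h, zero_add])
    intro x hx
    by_contra hcon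
    push Not at hcon
    obtain ⟨c1, c2⟩ := hcon
    apply hx
    have hx0 : x ≠ 0 := by
      rintro rfl
      exact c1 (hE.zero _)
    obtain ⟨y, b1, b2, b3⟩ := hnr x hx0
    refine ⟨y, y', b1, a1, a2, a3, fun hin => ?_⟩
    -- an element `p` of `V(x)` in the span of `x', y'`
    have hp : ∀ p, E x p → p ≠ 0 → p ∉ span (ZMod 2) {x', y'} := by
      intro p p1 p2 p3
      rw [mem_span2] at p3
      rcases p3 with p3 | p3 | p3 | p3
      · exact p2 p3
      · subst p3
        have p4 := hb x (hE.symm _ _ p1)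
        rw [mem_span2] at p4
        rcases p4 with p4 | p4 | p4 | p4
        · exact hx0 p4
        · exact c1 (p4 ▸ hE.symm _ _ a1)
        · exact c1 (p4 ▸ hE.self _)
        · exact c1 (p4 ▸ hE.add _ _ _ (hE.symm _ _ a1) (hE.self _))
      · exact c1 (hE.symm _ _ (p3 ▸ p1))
      · exact c2 (hE.symm _ _ (p3 ▸ p1))
    rcases span3_cases hin with h | h
    · exact hp y b1 b2 h
    · refine hp (y + x) (hE.add _ _ _ b1 (hE.self _)) (fun h0 => b3 ?_) h
      rw [← add_cancel' y x, h0, zero_add]
  · push Not at hb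
    obtain ⟨y'', e1, e2⟩ := hb
    refine ⟨x', x', hx', hx', ?_⟩
    intro x hx
    by_contra hcon
    rw [or_self] at hcon
    apply hx
    have hx0 : x ≠ 0 := by
      rintro rfl
      exact hcon (hE.zero _)
    obtain ⟨y, b1, b2, b3⟩ := hnr x hx0
    have hxx' : ¬ E x x' := fun h => hcon (hE.symm _ _ h)
    have hy : y ∉ span (ZMod 2) {x, x'} := by
      rw [mem_span2]
      rintro (h | h | h | h)
      · exact b2 h
      · exact b3 h
      · exact hxx' (h ▸ b1)
      · apply hxx'
        have := hE.add _ _ _ b1 (hE.self x)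
        rwa [h, add_comm x x', add_cancel'] at this
    have key : ∀ t, y ∈ span (ZMod 2) {x, x', t} → y + t ∈ span (ZMod 2) {x, x'} := by
      intro t ht
      have hset : ({x, x', t} : Set V) = {t, x, x'} := by
        ext z; simp only [Set.mem_insert_iff, Set.mem_singleton_iff]; tauto
      rw [hset] at ht
      exact (span3_cases ht).resolve_left hy
    by_cases h1 : y ∈ span (ZMod 2) {x, x', y'}
    · by_cases h2 : y ∈ span (ZMod 2) {x, x', y''}
      · exfalso
        have h3 := add_mem (key _ h1) (key _ h2)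
        have h4 : y + y' + (y + y'') = y' + y'' := by
          calc y + y' + (y + y'') = (y + y) + (y' + y'') := by abel
            _ = y' + y'' := by rw [dbl, zero_add]
        rw [h4, mem_span2] at h3
        have h5 : E x' (y' + y'') := hE.add _ _ _ a1 e1
        rcases h3 with h3 | h3 | h3 | h3
        · apply e2
          have : y'' = y' := by rw [← add_cancel' y'' y', add_comm y'' y', h3, zero_add]
          rw [this]
          exact subset_span (by simp)
        · exact hcon (h3 ▸ h5)
        · apply e2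
          have : y'' = x' + y' := by rw [← h3, add_comm y' y'', add_cancel']
          rw [this]
          exact add_mem (subset_span (by simp)) (subset_span (by simp))
        · apply hcon
          have := hE.add _ _ _ h5 (hE.self x')
          rwa [h3, add_cancel'] at this
      · refine ⟨y, y'', b1, e1, ?_, ?_, h2⟩
        · rintro rfl
          exact e2 (zero_mem _)
        · rintro rfl
          exact e2 (subset_span (by simp))
    · exact ⟨y, y', b1, a1, a2, a3, h1⟩

variable [Finite V]

theorem card_bad (hE : Rln E) (hnr : ∀ x : V, x ≠ 0 → ∃ y, E x y ∧ y ≠ 0 ∧ y ≠ x)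
    (hsm : ∀ u : V, u ≠ 0 → 8 * Nat.card (VE hE u) ≤ Nat.card V) {x' : V} (hx' : x' ≠ 0) :
    3 * Nat.card V ≤ 4 * Nat.card {x : V // Gd E x x'} := by
  classical
  have : Fintype V := Fintype.ofFinite V
  obtain ⟨u, v, hu, hv, hbad⟩ := bad_sub hE hnr hx'
  have e1 : ∀ a : V, #(univ.filter fun x => E a x) = Nat.card (VE hE a) := by
    intro a
    have : Fintype (VE hE a) := Fintype.ofFinite _
    rw [Nat.card_eq_fintype_card, Fintype.card_subtype]
    rfl
  have e2 : #(univ.filter fun x => Gd E x x') = Nat.card {x : V // Gd E x x'} := by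
    rw [Nat.card_eq_fintype_card, Fintype.card_subtype]
  have e3 := Finset.card_filter_add_card_filter_not (s := (univ : Finset V)) (fun x => Gd E x x')
  rw [card_univ, ← Nat.card_eq_fintype_card, e2] at e3
  have e4 : #(univ.filter fun x => ¬ Gd E x x') ≤ Nat.card (VE hE u) + Nat.card (VE hE v) := by
    rw [← e1 u, ← e1 v]
    refine (card_le_card ?_).trans (card_union_le _ _)
    intro x hx
    rw [mem_union]
    simp only [mem_filter, mem_univ, true_and] at hx ⊢
    exact hbad x hx
  have e5 := hsm u hu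
  have e6 := hsm v hv
  omega

/-- the product bound -/
theorem prod_le (f : Dual (ZMod 2) V) :
    Nat.card {x : V // AA E f x} * (Nat.card {x : V // BB E f x} + 3) ≤
      3 * Nat.card (Rel (k := ZMod 2) E ⊤) := by
  classical
  have hfR := finite_rel E
  have : Finite (Dual (ZMod 2) V →ₗ[ZMod 2] V) := Module.finite_of_finite (ZMod 2)
  have : Fintype V := Fintype.ofFinite V
  let K : Submodule (ZMod 2) (Dual (ZMod 2) V →ₗ[ZMod 2] V) :=
    { carrier := {φ | φ ∈ Rel (k := ZMod 2) E ⊤ ∧ φ f = 0}
      add_mem' := by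
        rintro a b ⟨ha, ha'⟩ ⟨hb, hb'⟩
        exact ⟨add_mem ha hb, by rw [LinearMap.add_apply, ha', hb', add_zero]⟩
      zero_mem' := ⟨zero_mem _, rfl⟩
      smul_mem' := by
        rintro c a ⟨ha, ha'⟩
        exact ⟨smul_mem _ _ ha, by rw [LinearMap.smul_apply, ha', smul_zero]⟩ }
  have hmK : ∀ φ, φ ∈ K ↔ φ ∈ Rel (k := ZMod 2) E ⊤ ∧ φ f = 0 := fun φ => Iff.rfl
  have hfK : Finite K := inferInstance
  -- the image
  have h1 : Nat.card {x : V // AA E f x} * Nat.card K ≤ Nat.card (Rel (k := ZMod 2) E ⊤) := by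
    have hex : ∀ x : {x : V // AA E f x}, ∃ y, E x.1 y ∧ f y = 1 := fun x => x.2.2
    choose Y hY using hex
    rw [← Nat.card_prod]
    refine Nat.card_le_card_of_injective
      (fun p => (⟨w p.1.1 (Y p.1) + p.2.1, add_mem (w_mem' (hY p.1).1) ((hmK _).1 p.2.2).1⟩ :
        Rel (k := ZMod 2) E ⊤)) ?_
    rintro ⟨x, κ⟩ ⟨x₁, κ₁⟩ h0
    have h1 : w (k := ZMod 2) x.1 (Y x) + κ.1 = w x₁.1 (Y x₁) + κ₁.1 := congrArg Subtype.val h0
    have h2 : (w (k := ZMod 2) x.1 (Y x) + κ.1) f = (w (k := ZMod 2) x₁.1 (Y x₁) + κ₁.1) f := by rw [h1]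
    rw [LinearMap.add_apply, LinearMap.add_apply, ((hmK _).1 κ.2).2, ((hmK _).1 κ₁.2).2, add_zero,
      add_zero, w2, w2, x.2.1, x₁.2.1, (hY x).2, (hY x₁).2, zero_smul, zero_smul, zero_add,
      zero_add, one_smul, one_smul] at h2
    have h3 : x = x₁ := Subtype.ext h2
    subst h3
    exact Prod.ext rfl (Subtype.ext (add_left_cancel h1))
  -- the kernel
  have h2 : Nat.card {x : V // BB E f x} ≤ 3 * (Nat.card K - 1) := by
    have : Fintype K := Fintype.ofFinite _
    have hex : ∀ x : V, ∃ y, BB E f x → E x y ∧ f y = 0 ∧ y ≠ 0 ∧ y ≠ x := by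
      intro x
      by_cases hx : BB E f x
      · obtain ⟨y, hy⟩ := hx.2.2
        exact ⟨y, fun _ => hy⟩
      · exact ⟨0, fun h => absurd h hx⟩
    choose Y hY using hex
    let P : Finset V := univ.filter fun x => BB E f x
    let Φ : V → (Dual (ZMod 2) V →ₗ[ZMod 2] V) := fun x => w x (Y x)
    have hcP : #P = Nat.card {x : V // BB E f x} := by
      rw [Nat.card_eq_fintype_card, Fintype.card_subtype]
    -- separation
    have hsep : ∀ x, BB E f x → ∀ x', BB E f x' → Φ x = Φ x' →
        x' = x ∨ x' = Y x ∨ x' = x + Y x := by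
      intro x hx x' hx' he
      obtain ⟨y1, y2, y3, y4⟩ := hY x hx
      obtain ⟨z1, z2, z3, z4⟩ := hY x' hx'
      by_cases hin : x' ∈ span (ZMod 2) {x, Y x}
      · rw [mem_span2] at hin
        exact hin.resolve_left hx'.1
      exfalso
      obtain ⟨g, hg, hg1⟩ := exists_form hin
      have g1 : g x = 0 := hg x (subset_span (by simp))
      have g2 : g (Y x) = 0 := hg _ (subset_span (by simp))
      have h0 : Φ x g = Φ x' g := by rw [he]
      simp only [Φ] at h0
      rw [w2, w2, g1, g2, hg1, zero_smul, zero_smul, one_smul, zero_add] at h0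
      rcases c01 (g (Y x')) with h | h
      · rw [h, zero_smul, add_zero] at h0
        exact z3 h0.symm
      · rw [h, one_smul] at h0
        exact z4 (by rw [← add_cancel' (Y x') x', ← h0, zero_add])
    have himg : P.image Φ ⊆ ((univ : Finset K).image Subtype.val).erase 0 := by
      intro ρ hρ
      obtain ⟨x, hx, rfl⟩ := mem_image.1 hρ
      have hx' : BB E f x := (mem_filter.1 hx).2
      obtain ⟨y1, y2, y3, y4⟩ := hY x hx'
      rw [mem_erase]
      refine ⟨fun h0 => ?_, mem_image.2 ⟨⟨Φ x, ?_⟩, mem_univ _, rfl⟩⟩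
      · have hns : Y x ∉ span (ZMod 2) {x} := by
          rw [mem_span1]
          rintro (h | h)
          · exact y3 h
          · exact y4 h
        obtain ⟨g, hg, hg1⟩ := exists_form hns
        have g1 : g x = 0 := hg x (mem_span_singleton_self x)
        have h1 : Φ x g = 0 := by rw [h0]; rfl
        simp only [Φ] at h1
        rw [w2, g1, hg1, zero_smul, one_smul, zero_add] at h1
        exact hx'.1 h1
      · rw [hmK]
        refine ⟨w_mem' y1, ?_⟩
        show w x (Y x) f = 0
        rw [w2, hx'.2.1, y2, zero_smul, zero_smul, add_zero]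
    have hc2 : #(P.image Φ) ≤ Nat.card K - 1 := by
      refine (card_le_card himg).trans ?_
      have h0 : (0 : Dual (ZMod 2) V →ₗ[ZMod 2] V) ∈ ((univ : Finset K).image Subtype.val) :=
        mem_image.2 ⟨⟨0, zero_mem _⟩, mem_univ _, rfl⟩
      rw [card_erase_of_mem h0,
        card_image_of_injective _ Subtype.val_injective, card_univ, Nat.card_eq_fintype_card]
    have hc3 : #P ≤ 3 * #(P.image Φ) := by
      refine card_le_mul_card_image (f := Φ) P 3 ?_
      intro ρ hρ
      obtain ⟨x, hx, rfl⟩ := mem_image.1 hρ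
      have hx' : BB E f x := (mem_filter.1 hx).2
      refine (card_le_card (t := {x, Y x, x + Y x}) ?_).trans card_le_three
      intro z hz
      obtain ⟨hz1, hz2⟩ := mem_filter.1 hz
      have := hsep x hx' z (mem_filter.1 hz1).2 hz2.symm
      simp only [mem_insert, mem_singleton]
      exact this
    rw [← hcP]
    omega
  have h3 : 0 < Nat.card K := Nat.card_pos
  have h4 : Nat.card {x : V // BB E f x} + 3 ≤ 3 * Nat.card K := by omega
  calc _ ≤ Nat.card {x : V // AA E f x} * (3 * Nat.card K) := Nat.mul_le_mul_left _ h4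
    _ = 3 * (Nat.card {x : V // AA E f x} * Nat.card K) := by ring
    _ ≤ _ := Nat.mul_le_mul_left _ h1

end Pool.Agent.N908.FR2
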