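import Pool.Agent.N908.FR.Part

/-!
Linear algebra over the field with two elements for `ManySymbols` at `p = 2`: relations
`x ∧ y` and linear forms which vanish at given elements.
-/

set_option autoImplicit false

open Module Submodule Finset

namespace Pool.Agent.N908.FR2

open Pool.Agent.N908.FR

variable {V : Type*} [AddCommGroup V] [Module (ZMod 2) V]

/-- the properties of the relation `q(x,y) = 0`, `-1 = 1` -/
structure Rln (E : V → V → Prop) : Prop where
  self : ∀ x, E x x
  symm : ∀ x y, E x y → E y x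
  add : ∀ x y z, E x y → E x z → E x (y + z)

lemma c01 (c : ZMod 2) : c = 0 ∨ c = 1 := by revert c; decide

lemma ne0 {c : ZMod 2} (h : c ≠ 0) : c = 1 := (c01 c).resolve_left h

lemma dbl (x : V) : x + x = 0 := ZModModule.add_self x

lemma add_cancel' (x y : V) : x + y + y = x := by rw [add_assoc, dbl, add_zero]

variable {E : V → V → Prop}

lemma Rln.zero (hE : Rln E) (x : V) : E x 0 := by
  have := hE.add x x x (hE.self x) (hE.self x)
  rwa [dbl] at this

/-- the value groups -/
def VE (hE : Rln E) (a : V) : Submodule (ZMod 2) V where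
  carrier := {b | E a b}
  add_mem' := fun {x y} hx hy => hE.add a x y hx hy
  zero_mem' := hE.zero a
  smul_mem' := by
    intro c x hx
    rcases c01 c with h | h
    · rw [h, zero_smul]; exact hE.zero a
    · rw [h, one_smul]; exact hx

lemma mem_VE (hE : Rln E) {a b : V} : b ∈ VE hE a ↔ E a b := Iff.rfl

lemma w2 (x y : V) (f : Dual (ZMod 2) V) : w x y f = f x • y + f y • x := by
  rw [w_apply, ZModModule.sub_eq_add]

/-- a linear form which separates a vector from a subspace -/
lemma exists_form {U : Submodule (ZMod 2) V} {y : V} (hy : y ∉ U) :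
    ∃ f : Dual (ZMod 2) V, (∀ u ∈ U, f u = 0) ∧ f y = 1 := by
  obtain ⟨f, h1, h2⟩ := exists_le_ker_of_notMem (K := ZMod 2) hy
  exact ⟨f, fun u hu => LinearMap.mem_ker.1 (h2 hu), ne0 h1⟩

lemma mem_span1 {x y : V} : y ∈ span (ZMod 2) {x} ↔ y = 0 ∨ y = x := by
  rw [mem_span_singleton]
  constructor
  · rintro ⟨c, rfl⟩
    rcases c01 c with h | h
    · left; rw [h, zero_smul]
    · right; rw [h, one_smul]
  · rintro (h | h)
    · exact ⟨0, by rw [h, zero_smul]⟩
    · exact ⟨1, by rw [h, one_smul]⟩

lemma mem_span2 {x x' y : V} : y ∈ span (ZMod 2) {x, x'} ↔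
    y = 0 ∨ y = x ∨ y = x' ∨ y = x + x' := by
  rw [mem_span_pair]
  constructor
  · rintro ⟨c, d, rfl⟩
    rcases c01 c with h | h <;> rcases c01 d with k | k <;> simp [h, k]
  · rintro (h | h | h | h)
    · exact ⟨0, 0, by simp [h]⟩
    · exact ⟨1, 0, by simp [h]⟩
    · exact ⟨0, 1, by simp [h]⟩
    · exact ⟨1, 1, by simp [h]⟩

variable [Finite V]

lemma card_sub (U : Submodule (ZMod 2) V) : Nat.card U = 2 ^ finrank (ZMod 2) U := by
  rw [Module.natCard_eq_pow_finrank (K := ZMod 2) (V := U), Nat.card_zmod]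

lemma card_V : Nat.card V = 2 ^ finrank (ZMod 2) V := by
  rw [Module.natCard_eq_pow_finrank (K := ZMod 2) (V := V), Nat.card_zmod]

lemma card_span3 (a b c : V) : Nat.card (span (ZMod 2) {a, b, c}) ≤ 8 := by
  classical
  rw [card_sub]
  have h1 : finrank (ZMod 2) (span (ZMod 2) ({a, b, c} : Set V)) ≤ 3 := by
    have h := finrank_span_finset_le_card (R := ZMod 2) ({a, b, c} : Finset V)
    rw [Set.finrank, Finset.coe_insert, Finset.coe_insert, Finset.coe_singleton] at h
    exact h.trans (Finset.card_le_three)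
  calc 2 ^ finrank (ZMod 2) (span (ZMod 2) ({a, b, c} : Set V)) ≤ 2 ^ 3 :=
        Nat.pow_le_pow_right (by norm_num) h1
    _ = 8 := by norm_num

instance : Finite (Dual (ZMod 2) V) := Module.finite_of_finite (ZMod 2)

lemma card_dual : Nat.card (Dual (ZMod 2) V) = Nat.card V := by
  rw [card_V (V := V), card_V (V := Dual (ZMod 2) V), Subspace.dual_finrank_eq]

/-- the number of linear forms which vanish at three given vectors and not at a fourth one -/
theorem card_forms {a b c y : V} (hy : y ∉ span (ZMod 2) {a, b, c}) :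
    Nat.card V ≤ 16 * Nat.card {f : Dual (ZMod 2) V // (f a = 0 ∧ f b = 0 ∧ f c = 0) ∧ f y = 1} := by
  obtain ⟨f₀, h1, h2⟩ := exists_form hy
  set U := span (ZMod 2) {a, b, c} with hU
  have ha : a ∈ U := subset_span (by simp)
  have hb : b ∈ U := subset_span (by simp)
  have hc : c ∈ U := subset_span (by simp)
  have hmem : ∀ f : Dual (ZMod 2) V, f ∈ U.dualAnnihilator → f a = 0 ∧ f b = 0 ∧ f c = 0 := by
    intro f hf
    rw [mem_dualAnnihilator] at hf
    exact ⟨hf a ha, hf b hb, hf c hc⟩
  have hf₀ : f₀ ∈ U.dualAnnihilator := (mem_dualAnnihilator _).2 h1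
  have e1 : Nat.card V = Nat.card U * Nat.card U.dualAnnihilator := by
    rw [card_V, card_sub, card_V (V := U.dualAnnihilator), ← pow_add,
      Subspace.finrank_add_finrank_dualAnnihilator_eq]
  -- half of the annihilator
  let F : U.dualAnnihilator → ZMod 2 ×
      {f : Dual (ZMod 2) V // (f a = 0 ∧ f b = 0 ∧ f c = 0) ∧ f y = 1} := fun f =>
    if h : f.1 y = 1 then (0, ⟨f.1, hmem _ f.2, h⟩) else
      (1, ⟨f.1 + f₀, hmem _ (add_mem f.2 hf₀), by
        rw [LinearMap.add_apply, (c01 (f.1 y)).resolve_right h, h2, zero_add]⟩)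
  have hF : Function.Injective F := by
    intro f g hfg
    simp only [F] at hfg
    split_ifs at hfg with h3 h4 h4
    · rw [Prod.mk_inj, Subtype.mk.injEq] at hfg
      exact Subtype.ext hfg.2
    · have h5 : (0 : ZMod 2) = 1 := congrArg Prod.fst hfg
      exact absurd h5 (by decide)
    · have h5 : (1 : ZMod 2) = 0 := congrArg Prod.fst hfg
      exact absurd h5 (by decide)
    · rw [Prod.mk_inj, Subtype.mk.injEq] at hfg
      exact Subtype.ext (add_right_cancel hfg.2)
  have e2 := Nat.card_le_card_of_injective F hF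
  rw [Nat.card_prod, Nat.card_zmod] at e2
  have e3 := card_span3 a b c
  rw [← hU] at e3
  rw [e1]
  calc Nat.card U * Nat.card U.dualAnnihilator ≤ 8 * (2 * _) := Nat.mul_le_mul e3 e2
    _ = _ := by ring

end Pool.Agent.N908.FR2
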