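import Pool.Agent.N908.FR2.Base

/-!
The case of a large value group: `|V(a)| (|V| - |V(a)|) ≤ 12 (|R| - 1)`.
-/

set_option autoImplicit false

open Module Submodule Finset

namespace Pool.Agent.N908.FR2

open Pool.Agent.N908.FR

variable {V : Type*} [AddCommGroup V] [Module (ZMod 2) V] [Finite V] {E : V → V → Prop}

/-- the relations, as a finite type -/
lemma finite_rel (E : V → V → Prop) : Finite (Rel (k := ZMod 2) E ⊤) := by
  have : Finite (Dual (ZMod 2) V →ₗ[ZMod 2] V) := Module.finite_of_finite (ZMod 2)
  infer_instance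

omit [Finite V] in
lemma w_mem' {x y : V} (h : E x y) : w x y ∈ Rel (k := ZMod 2) E ⊤ :=
  w_mem_Rel mem_top mem_top h

omit [Finite V] in
lemma span3_sub {a x y z : V} (h : z ∈ span (ZMod 2) {a, x, y}) (h0 : z ≠ 0) (ha : z ≠ a) :
    z = x ∨ z = y ∨ z = x + y ∨ z = a + x ∨ z = a + y ∨ z = a + (x + y) := by
  rw [mem_span_insert] at h
  obtain ⟨c, u, hu, rfl⟩ := h
  rw [mem_span2] at hu
  rcases c01 c with h1 | h1 <;> rcases hu with h2 | h2 | h2 | h2 <;> subst h1 <;> subst h2 <;>
    simp_all

/-- **a value group gives many relations** -/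
theorem big (hE : Rln E) (hnr : ∀ x : V, x ≠ 0 → ∃ y, E x y ∧ y ≠ 0 ∧ y ≠ x) (a : V) :
    Nat.card (VE hE a) * (Nat.card V - Nat.card (VE hE a)) ≤
      12 * (Nat.card (Rel (k := ZMod 2) E ⊤) - 1) := by
  classical
  have hfR := finite_rel E
  have : Fintype V := Fintype.ofFinite V
  have : Fintype (Rel (k := ZMod 2) E ⊤) := Fintype.ofFinite _
  have : Fintype (VE hE a) := Fintype.ofFinite _
  have hex : ∀ x : V, ∃ y, x ≠ 0 → E x y ∧ y ≠ 0 ∧ y ≠ x := by
    intro x
    by_cases hx : x = 0
    · exact ⟨0, fun h => absurd hx h⟩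
    · obtain ⟨y, hy⟩ := hnr x hx
      exact ⟨y, fun _ => hy⟩
  choose Y hY using hex
  have hne : ∀ x : V, ¬ E x a → x ≠ 0 := by
    rintro x hx rfl
    exact hx (hE.symm _ _ (hE.zero a))
  let P : Finset (V × V) := univ.filter fun p => ¬ E a p.1 ∧ E a p.2
  let Φ : V × V → (Dual (ZMod 2) V →ₗ[ZMod 2] V) := fun p => w p.1 (Y p.1) + w a p.2
  have hcardP : #P = (Nat.card V - Nat.card (VE hE a)) * Nat.card (VE hE a) := by
    have h1 : P = (univ.filter fun x => ¬ E a x) ×ˢ (univ.filter fun x => E a x) := by
      ext p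
      simp [P]
    have h2 : #(univ.filter fun x => E a x) = Nat.card (VE hE a) := by
      rw [Nat.card_eq_fintype_card, Fintype.card_subtype]
      rfl
    have h3 : #(univ.filter fun x => ¬ E a x) = Nat.card V - Nat.card (VE hE a) := by
      have := Finset.card_filter_add_card_filter_not (s := (univ : Finset V)) (fun x => E a x)
      rw [Finset.card_univ, ← Nat.card_eq_fintype_card, h2] at this
      omega
    rw [h1, card_product, h2, h3]
  -- the images are relations, not zero
  have himg : P.image Φ ⊆ ((univ : Finset (Rel (k := ZMod 2) E ⊤)).image Subtype.val).erase 0 := by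
    intro ρ hρ
    obtain ⟨⟨x, b⟩, hp, rfl⟩ := mem_image.1 hρ
    simp only [P, mem_filter, mem_univ, true_and] at hp
    have hx : ¬ E x a := fun h => hp.1 (hE.symm _ _ h)
    obtain ⟨y1, y2, y3⟩ := hY x (hne x hx)
    rw [mem_erase]
    refine ⟨fun h0 => ?_, mem_image.2 ⟨⟨Φ (x, b), ?_⟩, mem_univ _, rfl⟩⟩
    · -- evaluate at a form which is `0` at `a` and `1` at `x`
      obtain ⟨f, hf, hfx⟩ : ∃ f : Dual (ZMod 2) V, (∀ u ∈ span (ZMod 2) {a}, f u = 0) ∧
          f x = 1 := by
        apply exists_form
        rw [mem_span1]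
        rintro (h | h)
        · exact hne x hx h
        · exact hx (h ▸ hE.self x)
      have hfa : f a = 0 := hf a (mem_span_singleton_self a)
      have h1 : Φ (x, b) f = 0 := by rw [h0]; rfl
      simp only [Φ, LinearMap.add_apply, w2, hfx, hfa, one_smul, zero_smul, zero_add] at h1
      rcases c01 (f (Y x)) with h2 | h2 <;> rcases c01 (f b) with h3 | h3 <;>
        simp only [h2, h3, one_smul, zero_smul, add_zero] at h1
      · exact y2 h1
      · have : Y x = a := by rw [← add_cancel' (Y x) a, h1, zero_add]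
        exact hx (this ▸ y1)
      · have : Y x = x := by rw [← add_cancel' (Y x) x, h1, zero_add]
        exact y3 this
      · have h4 : Y x + x = a := by rw [← add_cancel' (Y x + x) a, h1, zero_add]
        exact hx (h4 ▸ hE.add x _ _ y1 (hE.self x))
    · exact add_mem (w_mem' y1) (w_mem' hp.2)
  have hcard2 : #(P.image Φ) ≤ Nat.card (Rel (k := ZMod 2) E ⊤) - 1 := by
    refine (card_le_card himg).trans ?_
    have h0 : (0 : Dual (ZMod 2) V →ₗ[ZMod 2] V) ∈
        ((univ : Finset (Rel (k := ZMod 2) E ⊤)).image Subtype.val) :=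
      mem_image.2 ⟨⟨0, zero_mem _⟩, mem_univ _, rfl⟩
    rw [card_erase_of_mem h0,
      card_image_of_injective _ Subtype.val_injective, card_univ, Nat.card_eq_fintype_card]
  -- the fibres
  have hfib : ∀ ρ ∈ P.image Φ, #(P.filter fun p => Φ p = ρ) ≤ 12 := by
    intro ρ hρ
    obtain ⟨⟨x, b⟩, hp, rfl⟩ := mem_image.1 hρ
    simp only [P, mem_filter, mem_univ, true_and] at hp
    have hx : ¬ E x a := fun h => hp.1 (hE.symm _ _ h)
    obtain ⟨y1, y2, y3⟩ := hY x (hne x hx)
    let T : Finset V := {x, Y x, x + Y x, a + x, a + Y x, a + (x + Y x)}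
    have hT : #T ≤ 6 := Finset.card_le_six
    set Q := P.filter fun p => Φ p = Φ (x, b) with hQ
    have hfst : ∀ p ∈ Q, p.1 ∈ T := by
      rintro ⟨x', b'⟩ hq
      simp only [hQ, P, mem_filter, mem_univ, true_and] at hq
      obtain ⟨⟨hx1, hb1⟩, hq2⟩ := hq
      have hx' : ¬ E x' a := fun h => hx1 (hE.symm _ _ h)
      obtain ⟨z1, z2, z3⟩ := hY x' (hne x' hx')
      by_cases hin : x' ∈ span (ZMod 2) {a, x, Y x}
      · have h5 := span3_sub hin (hne x' hx') (fun h => hx' (h ▸ hE.self _))
        simp only [T, mem_insert, mem_singleton]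
        exact h5
      exfalso
      obtain ⟨f, hf, hfx⟩ := exists_form hin
      have fa : f a = 0 := hf a (subset_span (by simp))
      have fx : f x = 0 := hf x (subset_span (by simp))
      have fy : f (Y x) = 0 := hf _ (subset_span (by simp))
      have h1 : Φ (x', b') f = Φ (x, b) f := by rw [hq2]
      simp only [Φ, LinearMap.add_apply, w2, hfx, fa, fx, fy, one_smul, zero_smul, zero_add,
        add_zero] at h1
      rcases c01 (f (Y x')) with h2 | h2 <;> rcases c01 (f b') with h3 | h3 <;>
        rcases c01 (f b) with h4 | h4 <;>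
        simp only [h2, h3, h4, one_smul, zero_smul, add_zero, add_eq_right] at h1
      · exact z2 h1
      · exact hx' (h1 ▸ z1)
      · have : Y x' = a := by rw [← add_cancel' (Y x') a, h1, zero_add]
        exact hx' (this ▸ z1)
      · exact z2 h1
      · have : Y x' = x' := by rw [← add_cancel' (Y x') x', h1, zero_add]
        exact z3 this
      · exact hx' (h1 ▸ hE.add _ _ _ z1 (hE.self _))
      · have h4 : Y x' + x' = a := by rw [← add_cancel' (Y x' + x') a, h1, zero_add]
        exact hx' (h4 ▸ hE.add _ _ _ z1 (hE.self _))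
      · have : Y x' = x' := by rw [← add_cancel' (Y x') x', h1, zero_add]
        exact z3 this
    have h6 : #Q ≤ 2 * #(Q.image Prod.fst) := by
      refine card_le_mul_card_image (f := Prod.fst) Q 2 ?_
      intro x' hx'
      obtain ⟨⟨x'', b''⟩, hq, rfl⟩ := mem_image.1 hx'
      have hsub : (Q.filter fun p => p.1 = x'') ⊆ {(x'', b''), (x'', b'' + a)} := by
        rintro ⟨u, c⟩ hu
        obtain ⟨hu1, hu2⟩ := mem_filter.1 hu
        have hu2' : u = x'' := hu2
        subst hu2'
        have e1 : Φ (u, c) = Φ (x, b) := (mem_filter.1 hu1).2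
        have e2 : Φ (u, b'') = Φ (x, b) := (mem_filter.1 hq).2
        have e3 : w (k := ZMod 2) a c = w a b'' := by
          have := e1.trans e2.symm
          exact add_left_cancel this
        have ha0 : a ≠ 0 := by
          rintro rfl
          have := (mem_filter.1 (mem_filter.1 hu1).1).2.1
          exact this (hE.symm _ _ (hE.zero _))
        -- `w a (c + b'') = 0`
        by_cases hc : c + b'' ∈ span (ZMod 2) {a}
        · rw [mem_span1] at hc
          rcases hc with hc | hc
          · have : c = b'' := by rw [← add_cancel' c b'', hc, zero_add]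
            simp [this]
          · have : c = b'' + a := by rw [← add_cancel' c b'', hc, add_comm]
            simp [this]
        · exfalso
          obtain ⟨f, hf, hfc⟩ := exists_form hc
          have hfa : f a = 0 := hf a (mem_span_singleton_self a)
          have e4 : w a c f = w a b'' f := by rw [e3]
          rw [w2, w2, hfa, zero_smul, zero_smul, zero_add, zero_add] at e4
          rw [map_add] at hfc
          have e5 : (f c + f b'') • a = 0 := by rw [add_smul, e4, dbl]
          rw [hfc, one_smul] at e5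
          exact ha0 e5
      exact (card_le_card hsub).trans Finset.card_le_two
    have h7 : #(Q.image Prod.fst) ≤ 6 := by
      refine (card_le_card ?_).trans hT
      intro u hu
      obtain ⟨p, hp, rfl⟩ := mem_image.1 hu
      exact hfst p hp
    omega
  have h8 := card_le_mul_card_image P 12 hfib
  rw [mul_comm, ← hcardP]
  exact h8.trans (Nat.mul_le_mul_left _ hcard2)

end Pool.Agent.N908.FR2
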