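import Pool.Agent.N908.FR2.Push

/-!
Value groups of index at least `2 ^ c` give about `(c + 1) n` relations.
-/

set_option autoImplicit false

open Module Submodule Finset

namespace Pool.Agent.N908.FR2

open Pool.Agent.N908.FR

universe u

variable {V V' : Type u} [AddCommGroup V] [Module (ZMod 2) V] [AddCommGroup V']
  [Module (ZMod 2) V'] [Finite V] [Finite V'] {E : V → V → Prop}

/-- the quotients by small subspaces are covered in part -/
theorem cov_quot (hE : Rln E) {c : ℕ} (hc1 : 1 ≤ c) (hV : 2 ≤ Nat.card V)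
    (hcov : ∀ x : V, x ≠ 0 → ∃ y, E x y ∧ y ≠ 0 ∧ y ≠ x)
    (hq : ∀ u : V, u ≠ 0 → 2 ^ c * Nat.card (VE hE u) ≤ Nat.card V) (π : V →ₗ[ZMod 2] V')
    (hπ : Function.Surjective π) (hA : Nat.card V ≤ 2 ^ c * Nat.card V') :
    Nat.card V' ≤ 2 ^ c *
      Nat.card {x : V' // Cov (ER ((Rel (k := ZMod 2) E ⊤).map (push π))) x} := by
  classical
  have : Fintype V := Fintype.ofFinite V
  have : Fintype V' := Fintype.ofFinite V'
  set A := LinearMap.ker π with hAdef
  have hcard : Nat.card V = Nat.card A * Nat.card V' := by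
    rw [Submodule.card_eq_card_quotient_mul_card A,
      Nat.card_congr (π.quotKerEquivOfSurjective hπ).toEquiv, mul_comm]
  have hV' : 0 < Nat.card V' := Nat.card_pos
  have hApos : 0 < Nat.card A := Nat.card_pos
  have hAc : Nat.card A ≤ 2 ^ c := by
    rw [hcard] at hA
    exact Nat.le_of_mul_le_mul_right hA hV'
  set N := Nat.card V with hN
  have e1 : ∀ a : V, #(univ.filter fun x => E a x) = Nat.card (VE hE a) := by
    intro a
    have : Fintype (VE hE a) := Fintype.ofFinite _
    rw [Nat.card_eq_fintype_card, Fintype.card_subtype]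
    rfl
  let g : V → Prop := fun x => x ≠ 0 ∧ ∀ u ∈ A, u ≠ 0 → ¬ E u x
  let P : Finset V := univ.filter g
  -- the images are covered
  have h1 : ∀ x ∈ P, Cov (ER ((Rel (k := ZMod 2) E ⊤).map (push π))) (π x) := by
    intro x hx
    obtain ⟨hx0, hx1⟩ := (mem_filter.1 hx).2
    obtain ⟨y, y1, y2, y3⟩ := hcov x hx0
    refine ⟨fun h0 => hx1 x (LinearMap.mem_ker.2 h0) hx0 (hE.self x), π y, ?_, fun h0 => ?_,
      fun h0 => ?_⟩
    · rw [ER, ← push_w]
      exact mem_map_of_mem (w_mem' y1)
    · exact hx1 y (LinearMap.mem_ker.2 h0) y2 (hE.symm _ _ y1)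
    · have h2 : y + x ∈ A := by
        rw [hAdef, LinearMap.mem_ker, map_add, h0, dbl]
      refine hx1 (y + x) h2 (fun h3 => y3 ?_) (hE.symm _ _ (hE.add _ _ _ y1 (hE.self x)))
      rw [← add_cancel' y x, h3, zero_add]
  -- fibres
  have h2 : #P ≤ Nat.card A *
      Nat.card {x : V' // Cov (ER ((Rel (k := ZMod 2) E ⊤).map (push π))) x} := by
    have h3 : #P ≤ Nat.card A * #(P.image π) := by
      refine card_le_mul_card_image (f := π) P (Nat.card A) ?_
      intro b hb
      obtain ⟨x₀, hx₀, rfl⟩ := mem_image.1 hb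
      have : Fintype A := Fintype.ofFinite _
      have h6 : #(univ.filter fun u : V => u ∈ A) = Nat.card A := by
        rw [Nat.card_eq_fintype_card, Fintype.card_subtype]
      rw [← h6]
      refine card_le_card_of_injOn (fun x => x + x₀) ?_ ?_
      · intro x hx
        have h4 := (mem_filter.1 (mem_coe.1 hx)).2
        rw [mem_coe, mem_filter]
        refine ⟨mem_univ _, ?_⟩
        rw [hAdef, LinearMap.mem_ker, map_add, h4, dbl]
      · intro x _ y _ h
        exact add_right_cancel h
    have h4 : #(P.image π) ≤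
        Nat.card {x : V' // Cov (ER ((Rel (k := ZMod 2) E ⊤).map (push π))) x} := by
      rw [Nat.card_eq_fintype_card, Fintype.card_subtype]
      refine card_le_card fun b hb => ?_
      obtain ⟨x, hx, rfl⟩ := mem_image.1 hb
      exact mem_filter.2 ⟨mem_univ _, h1 x hx⟩
    exact h3.trans (Nat.mul_le_mul_left _ h4)
  -- the number of elements of `P`
  have h3 : N ≤ 2 ^ c * #P := by
    have e3 := Finset.card_filter_add_card_filter_not (s := (univ : Finset V)) g
    rw [card_univ, ← Nat.card_eq_fintype_card, ← hN] at e3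
    have e3' : #P + #(univ.filter fun x => ¬ g x) = N := e3
    by_cases hA0 : ∃ u ∈ A, u ≠ 0
    · have e4 : (univ.filter fun x => ¬ g x) ⊆
          (univ.filter fun u : V => u ∈ A ∧ u ≠ 0).biUnion fun u => univ.filter fun x => E u x := by
        intro z hz
        have hz' := (mem_filter.1 hz).2
        simp only [mem_biUnion, mem_filter, mem_univ, true_and]
        by_cases hz0 : z = 0
        · obtain ⟨u, hu, hu0⟩ := hA0
          exact ⟨u, ⟨hu, hu0⟩, hz0 ▸ hE.zero u⟩
        by_contra hcon
        push Not at hcon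
        exact hz' ⟨hz0, fun u hu hu0 => hcon u ⟨hu, hu0⟩⟩
      have e5 : 2 ^ c * #(univ.filter fun x => ¬ g x) ≤ (Nat.card A - 1) * N := by
        calc _ ≤ 2 ^ c * ∑ u ∈ univ.filter (fun u : V => u ∈ A ∧ u ≠ 0),
              #(univ.filter fun x => E u x) :=
              Nat.mul_le_mul_left _ ((card_le_card e4).trans card_biUnion_le)
          _ = ∑ u ∈ univ.filter (fun u : V => u ∈ A ∧ u ≠ 0), 2 ^ c * Nat.card (VE hE u) := by
              rw [mul_sum]
              exact sum_congr rfl fun u _ => by rw [e1]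
          _ ≤ ∑ _u ∈ univ.filter (fun u : V => u ∈ A ∧ u ≠ 0), N :=
              sum_le_sum fun u hu => hq u (mem_filter.1 hu).2.2
          _ = #(univ.filter (fun u : V => u ∈ A ∧ u ≠ 0)) * N := by rw [sum_const, smul_eq_mul]
          _ ≤ _ := by
              refine Nat.mul_le_mul_right _ ?_
              have : Fintype A := Fintype.ofFinite _
              have h6 : #(univ.filter fun u : V => u ∈ A) = Nat.card A := by
                rw [Nat.card_eq_fintype_card, Fintype.card_subtype]
              have h7 : (univ.filter fun u : V => u ∈ A ∧ u ≠ 0) =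
                  (univ.filter fun u : V => u ∈ A).erase 0 := by
                ext u
                simp only [mem_filter, mem_univ, true_and, mem_erase]
                tauto
              rw [h7, card_erase_of_mem (by simp), h6]
      have e6 : (Nat.card A - 1) * N ≤ (2 ^ c - 1) * N := Nat.mul_le_mul_right _ (by omega)
      have e7 : 2 ^ c * #P + 2 ^ c * #(univ.filter fun x => ¬ g x) = 2 ^ c * N := by
        rw [← mul_add, e3']
      have e8 : (2 ^ c - 1) * N + N = 2 ^ c * N := by
        have : 1 ≤ 2 ^ c := Nat.one_le_two_pow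
        obtain ⟨m, hm⟩ : ∃ m, 2 ^ c = m + 1 := ⟨2 ^ c - 1, by omega⟩
        rw [hm, Nat.add_sub_cancel]
        ring
      omega
    · push Not at hA0
      have e4 : (univ.filter fun x => ¬ g x) ⊆ {0} := by
        intro z hz
        have hz' := (mem_filter.1 hz).2
        rw [mem_singleton]
        by_contra hz0
        exact hz' ⟨hz0, fun u hu hu0 => absurd (hA0 u hu) hu0⟩
      have e5 := card_le_card e4
      rw [card_singleton] at e5
      have e6 : 2 ^ 1 ≤ 2 ^ c := Nat.pow_le_pow_right (by norm_num) hc1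
      calc N ≤ 2 ^ 1 * #P := by omega
        _ ≤ _ := Nat.mul_le_mul_right _ e6
  have h4 : Nat.card A * Nat.card V' ≤ Nat.card A * (2 ^ c *
      Nat.card {x : V' // Cov (ER ((Rel (k := ZMod 2) E ⊤).map (push π))) x}) := by
    rw [← hcard]
    calc N ≤ 2 ^ c * #P := h3
      _ ≤ 2 ^ c * (Nat.card A *
        Nat.card {x : V' // Cov (ER ((Rel (k := ZMod 2) E ⊤).map (push π))) x}) :=
          Nat.mul_le_mul_left _ h2
      _ = _ := by ring
  exact Nat.le_of_mul_le_mul_left h4 hApos

/-- **value groups of index at least `2 ^ c`** -/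
theorem index_rel (hE : Rln E) {c : ℕ} (hc1 : 1 ≤ c) (hV : 2 ≤ Nat.card V)
    (hcov : ∀ x : V, x ≠ 0 → ∃ y, E x y ∧ y ≠ 0 ∧ y ≠ x)
    (hq : ∀ u : V, u ≠ 0 → 2 ^ c * Nat.card (VE hE u) ≤ Nat.card V) :
    Nat.card V ^ (c + 1) ≤ 2 ^ kk c c * Nat.card (Rel (k := ZMod 2) E ⊤) :=
  quot_ind c c V _ fun _ _ _ _ π hπ hA => cov_quot hE hc1 hV hcov hq π hπ hA

end Pool.Agent.N908.FR2
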