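import Pool.Agent.N908.FR2.Rigid
import Pool.Agent.N88.FR.Field

/-!
Fields whose norm groups have large index and which have many Steinberg symbols.
-/

set_option autoImplicit false

open Module

namespace Pool.Agent.N908.FR2

open Pool.Agent.N908.FR Pool.Agent.H315R3.ETC Pool.Agent.Y920.ETC Pool.Agent.N88.FR
open Pool.Agent.TH188.ET

section
variable {S : QData}

/-- the basic part is small -/
theorem basic_small (h : IsQuat S) (hne : S.neg = 1) {n : ℕ} (hn : Nat.card S.G = 2 ^ n) {c : ℕ}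
    (hc1 : 1 ≤ c)
    (hc : ∀ a : S.G, a ≠ 1 → 2 ^ (c + 1) * {b : S.G | S.q a b = S.zero}.ncard ≤ 2 ^ n)
    (hs : 2 ^ (n.choose 2 + (3 * c ^ 2 + 5 * c + 3)) < 2 ^ ((c + 1) * (n - 1)) * numSy S ∨
      2 ^ (n.choose 2 + 5) < 4 ^ (n - 1) * numSy S)
    (B : Subgroup S.G) (hB : ∀ a : S.G, a ∈ B ↔ ¬ Bi S a) : 2 * Nat.card B < Nat.card S.G := by
  have hfin : Finite S.G := Nat.finite_of_card_ne_zero (by rw [hn]; positivity)
  by_contra hcon
  push Not at hcon
  obtain ⟨m, hm⟩ := card_pow_sub h B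
  have hneg : S.neg ∈ B := (hB _).2 fun hb => hb.2.1 rfl
  have hout : ∀ g : S.G, g ∉ B → Bi S g := by
    intro g hg
    by_contra hc
    exact hg ((hB g).2 hc)
  obtain ⟨hT, hcl⟩ := isQuat_restrN h B hneg hout
  have hnr : ∀ a : S.G, a ∈ B → a ≠ 1 → ∃ b ∈ B, S.q a b = S.zero ∧ b ≠ 1 ∧ b ≠ a := by
    intro a ha ha1
    have h1 := (hB a).1 ha
    have h2 : ¬ Hr S a := fun hr => h1 ⟨ha1, by rwa [hne], hr, by rwa [hne, one_mul]⟩
    rw [Hr] at h2
    push Not at h2
    obtain ⟨e, he, e1, e2⟩ := h2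
    exact ⟨e, hcl a e ha ha1 he, he, e1, by rwa [hne, one_mul] at e2⟩
  have hTneg : (restrN S B hneg).neg = 1 := Subtype.ext hne
  have hTn : Nat.card (restrN S B hneg).G = 2 ^ m := hm
  have hmn : n ≤ m + 1 := by
    rw [hm, hn, mul_comm, ← pow_succ] at hcon
    exact (Nat.pow_le_pow_iff_right (by norm_num)).1 hcon
  have hmn' : m ≤ n := by
    have h1 := Subgroup.card_le_card_group B
    rw [hm, hn] at h1
    exact (Nat.pow_le_pow_iff_right (by norm_num)).1 h1
  -- the value groups of the basic part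
  have hTc : ∀ a : (restrN S B hneg).G, a ≠ 1 →
      2 ^ c * {b : (restrN S B hneg).G | (restrN S B hneg).q a b = (restrN S B hneg).zero}.ncard ≤
        2 ^ m := by
    intro (a : B) ha
    have h1 := hc a.1 fun e => ha (Subtype.ext e)
    have h2 : {b : (restrN S B hneg).G | (restrN S B hneg).q a b =
        (restrN S B hneg).zero}.ncard ≤ {b : S.G | S.q a.1 b = S.zero}.ncard := by
      refine Set.ncard_le_ncard_of_injOn (fun b : B => b.1) (fun b hb => hb)
        (fun x _ y _ e => Subtype.ext e) (Set.toFinite _)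
    have h3 : 2 ^ n ≤ 2 ^ (m + 1) := Nat.pow_le_pow_right (by norm_num) hmn
    rw [pow_succ] at h1 h3
    have h4 := Nat.mul_le_mul_left (2 ^ c) h2
    have h5 : 2 ^ c * 2 * {b : S.G | S.q a.1 b = S.zero}.ncard =
      2 * (2 ^ c * {b : S.G | S.q a.1 b = S.zero}.ncard) := by ring
    omega
  have hTr : ∀ a : (restrN S B hneg).G, a ≠ 1 →
      (∃ b, (restrN S B hneg).q a b = (restrN S B hneg).zero ∧ b ≠ 1 ∧ b ≠ a) := by
    intro (a : B) ha
    obtain ⟨b, hb, b1, b2, b3⟩ := hnr a.1 a.2 fun e => ha (Subtype.ext e)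
    exact ⟨(⟨b, hb⟩ : B), b1, fun e => b2 (congrArg Subtype.val e),
      fun e => b3 (congrArg Subtype.val e)⟩
  have hcore : Core (restrN S B hneg) := by
    intro a ha
    refine ⟨hTr a ha, ?_⟩
    by_contra hall
    push Not at hall
    have h1 := hTc a ha
    have h2 : {b : (restrN S B hneg).G | (restrN S B hneg).q a b = (restrN S B hneg).zero} =
        Set.univ := Set.eq_univ_of_forall hall
    rw [h2, Set.ncard_univ, hTn] at h1
    have h3 : 2 ^ 1 ≤ 2 ^ c := Nat.pow_le_pow_right (by norm_num) hc1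
    have h4 : 0 < 2 ^ m := by positivity
    nlinarith
  -- symbols
  have hsy : numSy S * 2 ^ m.choose 2 ≤ numSy (restrN S B hneg) * 2 ^ n.choose 2 := by
    rcases Nat.lt_or_ge m n with hlt | hge
    · have hn1 : n = m + 1 := by omega
      obtain ⟨x, hx⟩ : ∃ x : S.G, x ∉ B := by
        by_contra hall
        push Not at hall
        have : B = ⊤ := by rw [Subgroup.eq_top_iff']; exact hall
        rw [this, Subgroup.card_top, hn] at hm
        have := Nat.pow_right_injective (le_refl 2) hm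
        omega
      have hidx : B.index = 2 := by
        have h1 := B.card_mul_index
        rw [hm, hn, hn1, pow_succ] at h1
        exact Nat.eq_of_mul_eq_mul_left (by positivity) h1
      have hK : ∀ y : S.G, y ∈ B ∨ y * x ∈ B := by
        intro y
        by_cases hy : y ∈ B
        · exact Or.inl hy
        · right
          rw [Subgroup.mul_mem_iff_of_index_two hidx]
          exact ⟨fun h => absurd h hy, fun h => absurd h hx⟩
      have h1 := numSy_restr h hne B hneg x hK hm hT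
      rw [hn1, choose_succ, pow_add]
      calc numSy S * 2 ^ m.choose 2 ≤ numSy (restrN S B hneg) * 2 ^ m * 2 ^ m.choose 2 :=
            Nat.mul_le_mul_right _ h1
        _ = _ := by ring
    · have hmn2 : m = n := by omega
      subst hmn2
      refine Nat.mul_le_mul_right _ ?_
      have htop : ∀ g : S.G, g ∈ B := by
        have : B = ⊤ := Subgroup.eq_top_of_card_eq B (by rw [hm, hn])
        rw [this]
        exact fun g => Subgroup.mem_top g
      have hfB : Finite (restrN S B hneg).G := inferInstanceAs (Finite B)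
      refine Nat.card_le_card_of_injective (fun χ : {χ : S.G → S.G → ZMod 2 // IsSy S χ} =>
        (⟨fun (a b : B) => χ.1 a.1 b.1, fun (a b c : B) => χ.2.1 a.1 b.1 c.1,
          fun (a b c : B) => χ.2.2.1 a.1 b.1 c.1, fun (a b : B) hab => χ.2.2.2 a.1 b.1 hab⟩ :
          {χ : (restrN S B hneg).G → (restrN S B hneg).G → ZMod 2 //
            IsSy (restrN S B hneg) χ})) ?_
      intro χ χ' he
      apply Subtype.ext
      funext a b
      have := congrArg (fun ψ : {χ : (restrN S B hneg).G → (restrN S B hneg).G → ZMod 2 //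
            IsSy (restrN S B hneg) χ} => ψ.1 (⟨a, htop a⟩ : B) (⟨b, htop b⟩ : B)) he
      exact this
  have hpos : 0 < 2 ^ m.choose 2 := by positivity
  have key : ∀ x k : ℕ, x * numSy (restrN S B hneg) ≤ 2 ^ (m.choose 2 + k) →
      x * numSy S ≤ 2 ^ (n.choose 2 + k) := by
    intro x k hx
    refine Nat.le_of_mul_le_mul_left (?_ : 2 ^ m.choose 2 * _ ≤ 2 ^ m.choose 2 * _) hpos
    calc 2 ^ m.choose 2 * (x * numSy S) = x * (numSy S * 2 ^ m.choose 2) := by ring
      _ ≤ x * (numSy (restrN S B hneg) * 2 ^ n.choose 2) := Nat.mul_le_mul_left _ hsy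
      _ = x * numSy (restrN S B hneg) * 2 ^ n.choose 2 := by ring
      _ ≤ 2 ^ (m.choose 2 + k) * 2 ^ n.choose 2 := Nat.mul_le_mul_right _ hx
      _ = _ := by rw [pow_add, pow_add]; ring
  rcases hs with hs | hs
  · have h1 := key _ _ (index_bound2 hT hTneg hTn hc1 fun a ha => ⟨hTr a ha, hTc a ha⟩)
    have h2 : 2 ^ ((c + 1) * (n - 1)) ≤ 2 ^ ((c + 1) * m) :=
      Nat.pow_le_pow_right (by norm_num) (Nat.mul_le_mul_left _ (by omega))
    have h3 := Nat.mul_le_mul_right (numSy S) h2
    omega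
  · have hfB : Finite (restrN S B hneg).G := inferInstanceAs (Finite B)
    have h1 := key _ _ (core_bound hT hTneg hTn hcore)
    have h2 : 4 ^ (n - 1) ≤ 4 ^ m := Nat.pow_le_pow_right (by norm_num) (by omega)
    have h3 := Nat.mul_le_mul_right (numSy S) h2
    omega

end

/-- the structure of a field -/
theorem field_str {F : Type} [Field F] (h2 : (2 : F) ≠ 0) {n : ℕ} (hn : (sqG F).index = 2 ^ n)
    (hsq : IsSquare (-1 : F)) :
    ∃ S : QData, IsStructureOf F S ∧ Finite S.G ∧ IsQuat S ∧ S.neg = 1 ∧ Nat.card S.G = 2 ^ n ∧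
      Nat.card {c : Fˣ → Fˣ → ZMod 2 // IsSt F c} = numSy S ∧
      (∃ (B : Type 1) (_ : AddCommGroup B) (β : S.G → S.G → B), Pool.Agent.N88.ETC.Add S β) ∧
      ∀ g : S.G, g ≠ 1 → ∃ a : Fˣ, ¬ IsSquare (a : F) ∧
        {b : S.G | S.q g b = S.zero}.ncard * (nG a).index = 2 ^ n := by
  obtain ⟨S, hS, hSf, hSq, ⟨β, hβ⟩, -⟩ := Pool.Agent.N88.ETC.field_add h2
    (finSq_of_index (by rw [hn]; positivity))
  obtain ⟨φ, hs', hk, hneg, h0, hq⟩ := id hS
  have hcard : Nat.card S.G = (sqG F).index := card_eq hs' hk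
  refine ⟨S, hS, hSf, hSq, ?_, hcard.trans hn, num_eq hs' hk (q_zero h0 hq h2),
    ⟨_, _, β, hβ⟩, ?_⟩
  · rw [← hneg, hk]
    obtain ⟨r, hr⟩ := hsq
    have hr0 : r ≠ 0 := by
      rintro rfl
      rw [mul_zero] at hr
      exact one_ne_zero (neg_eq_zero.1 hr)
    refine ⟨Units.mk0 r hr0, ?_⟩
    ext
    rw [Units.val_neg, Units.val_one, Units.val_pow_eq_pow_val, Units.val_mk0, hr, pow_two]
  · intro g hg
    obtain ⟨a, rfl⟩ := hs' g
    refine ⟨a, ?_, ?_⟩
    · rintro ⟨r, hr⟩
      apply hg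
      rw [hk]
      have hr0 : r ≠ 0 := by
        rintro rfl
        rw [mul_zero] at hr
        exact a.ne_zero hr
      refine ⟨Units.mk0 r hr0, ?_⟩
      ext
      rw [Units.val_pow_eq_pow_val, Units.val_mk0, hr, pow_two]
    · have h1 := vs_eq hs' hk h0 hq h2 a
      have h3 : sqG F ≤ nG a := by
        intro x hx
        rw [mem_sqG] at hx
        obtain ⟨b, rfl⟩ := hx
        exact NormFrom.sq a b
      have h4 := Subgroup.relIndex_mul_index h3
      rw [← h1, hn] at h4
      exact h4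

end Pool.Agent.N908.FR2
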