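import Pool.Agent.N908.FR2.Avg

/-!
The bound `|V| ^ 2 < 64 |R|` for a space of relations without rigid and radical elements.
-/

set_option autoImplicit false

open Module Submodule Finset

namespace Pool.Agent.N908.FR2

open Pool.Agent.N908.FR

variable {V : Type*} [AddCommGroup V] [Module (ZMod 2) V] [Finite V] {E : V → V → Prop}

/-- the sum over all linear forms -/
theorem sum_AB (hE : Rln E) (hnr : ∀ x : V, x ≠ 0 → ∃ y, E x y ∧ y ≠ 0 ∧ y ≠ x)
    (hsm : ∀ u : V, u ≠ 0 → 8 * Nat.card (VE hE u) ≤ Nat.card V) [Fintype (Dual (ZMod 2) V)] :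
    3 * Nat.card V ^ 2 * (Nat.card V - 1) ≤
      64 * ∑ f : Dual (ZMod 2) V, Nat.card {x : V // AA E f x} * Nat.card {x : V // BB E f x} := by
  classical
  have : Fintype V := Fintype.ofFinite V
  set N := Nat.card V with hN
  let T : Finset (Dual (ZMod 2) V × (V × V)) :=
    univ.filter fun p => AA E p.1 p.2.1 ∧ BB E p.1 p.2.2
  have h1 : #T = ∑ f : Dual (ZMod 2) V,
      Nat.card {x : V // AA E f x} * Nat.card {x : V // BB E f x} := by
    rw [card_eq_sum_card_fiberwise (f := Prod.fst) (t := univ) (fun _ _ => mem_univ _)]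
    refine sum_congr rfl fun f _ => ?_
    rw [Nat.card_eq_fintype_card, Nat.card_eq_fintype_card, Fintype.card_subtype,
      Fintype.card_subtype, ← card_product]
    refine card_bij (fun p _ => p.2) ?_ ?_ ?_
    · rintro ⟨g, x, x'⟩ hp
      simp only [T, mem_filter, mem_univ, true_and] at hp
      obtain ⟨⟨a1, a2⟩, rfl⟩ := hp
      simp only [mem_product, mem_filter, mem_univ, true_and]
      exact ⟨a1, a2⟩
    · rintro ⟨g, x⟩ hp ⟨g', x'⟩ hp' he
      have e1 : g = f := (mem_filter.1 hp).2
      have e2 : g' = f := (mem_filter.1 hp').2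
      exact Prod.ext (e1.trans e2.symm) he
    · rintro ⟨x, x'⟩ hp
      simp only [mem_product, mem_filter, mem_univ, true_and] at hp
      refine ⟨(f, x, x'), ?_, rfl⟩
      simp only [T, mem_filter, mem_univ, true_and, and_true]
      exact hp
  -- good pairs
  let G : Finset (V × V) := univ.filter fun q => q.2 ≠ 0 ∧ Gd E q.1 q.2
  have h2 : 3 * N * (N - 1) ≤ 4 * #G := by
    have e1 : #G = ∑ x' ∈ (univ : Finset V).erase 0, Nat.card {x : V // Gd E x x'} := by
      rw [card_eq_sum_card_fiberwise (f := Prod.snd) (t := (univ : Finset V).erase 0)]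
      · refine sum_congr rfl fun x' hx' => ?_
        rw [Nat.card_eq_fintype_card, Fintype.card_subtype]
        refine card_bij (fun p _ => p.1) ?_ ?_ ?_
        · rintro ⟨x, z⟩ hp
          simp only [G, mem_filter, mem_univ, true_and] at hp
          obtain ⟨⟨a1, a2⟩, rfl⟩ := hp
          simp only [mem_filter, mem_univ, true_and]
          exact a2
        · rintro ⟨g, x⟩ hp ⟨g', z⟩ hp' he
          have e1 : x = x' := (mem_filter.1 hp).2
          have e2 : z = x' := (mem_filter.1 hp').2
          exact Prod.ext he (e1.trans e2.symm)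
        · intro x hp
          simp only [mem_filter, mem_univ, true_and] at hp
          refine ⟨(x, x'), ?_, rfl⟩
          simp only [G, mem_filter, mem_univ, true_and, and_true]
          exact ⟨(mem_erase.1 hx').1, hp⟩
      · rintro ⟨x, z⟩ hp
        have hp' := (mem_filter.1 (mem_coe.1 hp)).2
        simp only [coe_erase, coe_univ, Set.mem_sdiff, Set.mem_univ, true_and,
          Set.mem_singleton_iff]
        exact hp'.1
    have e2 : ∑ _x' ∈ (univ : Finset V).erase 0, 3 * N ≤
        ∑ x' ∈ (univ : Finset V).erase 0, 4 * Nat.card {x : V // Gd E x x'} :=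
      sum_le_sum fun x' hx' => card_bad hE hnr hsm (mem_erase.1 hx').1
    rw [sum_const, ← mul_sum, ← e1, card_erase_of_mem (mem_univ _), card_univ,
      ← Nat.card_eq_fintype_card, smul_eq_mul, ← hN] at e2
    rw [mul_comm]
    exact e2
  have h3 : N * #G ≤ 16 * #T := by
    have e1 : ∑ q ∈ G, #(T.filter fun p => p.2 = q) ≤ #T := by
      rw [card_eq_sum_card_fiberwise (s := T) (f := Prod.snd) (t := univ)
        (fun _ _ => mem_univ _)]
      exact sum_le_sum_of_subset (subset_univ _)
    have e2 : ∑ _q ∈ G, N ≤ ∑ q ∈ G, 16 * #(T.filter fun p => p.2 = q) := by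
      refine sum_le_sum fun q hq => ?_
      obtain ⟨x, x'⟩ := q
      simp only [G, mem_filter, mem_univ, true_and] at hq
      obtain ⟨hx', y, y', b1, b2, b3, b4, b5⟩ := hq
      refine (card_forms b5).trans (Nat.mul_le_mul_left _ ?_)
      rw [Nat.card_eq_fintype_card, Fintype.card_subtype]
      refine card_le_card_of_injOn (fun f => (f, x, x')) ?_ ?_
      · intro f hf
        have hf' := (mem_filter.1 (mem_coe.1 hf)).2
        obtain ⟨⟨c1, c2, c3⟩, c4⟩ := hf'
        rw [mem_coe, mem_filter, mem_filter]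
        exact ⟨⟨mem_univ _, ⟨c1, y, b1, c4⟩, hx', c2, y', b2, c3, b3, b4⟩, rfl⟩
      · intro f _ g _ he
        exact congrArg Prod.fst he
    rw [sum_const, ← mul_sum, smul_eq_mul] at e2
    calc N * #G = #G * N := mul_comm _ _
      _ ≤ _ := e2
      _ ≤ _ := Nat.mul_le_mul_left _ e1
  rw [← h1]
  calc 3 * N ^ 2 * (N - 1) = N * (3 * N * (N - 1)) := by ring
    _ ≤ N * (4 * #G) := Nat.mul_le_mul_left _ h2
    _ = 4 * (N * #G) := by ring
    _ ≤ 4 * (16 * #T) := Nat.mul_le_mul_left _ h3
    _ = 64 * #T := by ring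

/-- **few relations**: there is a rigid or a radical element -/
theorem sq_lt (hE : Rln E) (hnr : ∀ x : V, x ≠ 0 → ∃ y, E x y ∧ y ≠ 0 ∧ y ≠ x)
    (hrd : ∀ x : V, x ≠ 0 → ∃ y, ¬ E x y) :
    Nat.card V ^ 2 < 64 * Nat.card (Rel (k := ZMod 2) E ⊤) := by
  classical
  have hfR := finite_rel E
  have hR : 0 < Nat.card (Rel (k := ZMod 2) E ⊤) := Nat.card_pos
  have hV : 0 < Nat.card V := Nat.card_pos
  by_cases hsm : ∀ u : V, u ≠ 0 → 8 * Nat.card (VE hE u) ≤ Nat.card V
  · -- small value groups
    have : Fintype (Dual (ZMod 2) V) := Fintype.ofFinite _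
    have h1 := sum_AB hE hnr hsm
    by_cases hN1 : Nat.card V = 1
    · rw [hN1]; omega
    have hN2 : 2 ≤ Nat.card V := by omega
    have h0A : Nat.card {x : V // AA E (0 : Dual (ZMod 2) V) x} = 0 := by
      rw [Nat.card_eq_zero]
      left
      refine ⟨?_⟩
      rintro ⟨x, -, y, -, hy⟩
      rw [LinearMap.zero_apply] at hy
      exact absurd hy (by decide)
    rw [← sum_erase_add _ _ (mem_univ (0 : Dual (ZMod 2) V)), h0A, zero_mul, add_zero] at h1
    have hcard : #((univ : Finset (Dual (ZMod 2) V)).erase 0) = Nat.card V - 1 := by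
      rw [card_erase_of_mem (mem_univ _), card_univ, ← Nat.card_eq_fintype_card, card_dual]
    obtain ⟨f, hf⟩ : ∃ f : Dual (ZMod 2) V, 3 * Nat.card V ^ 2 ≤
        64 * (Nat.card {x : V // AA E f x} * Nat.card {x : V // BB E f x}) := by
      by_contra hcon
      push Not at hcon
      have h2 : ∑ f ∈ (univ : Finset (Dual (ZMod 2) V)).erase 0,
          64 * (Nat.card {x : V // AA E f x} * Nat.card {x : V // BB E f x}) <
          ∑ _f ∈ (univ : Finset (Dual (ZMod 2) V)).erase 0, 3 * Nat.card V ^ 2 := by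
        refine sum_lt_sum_of_nonempty ?_ fun f _ => hcon f
        rw [← card_pos, hcard]
        omega
      rw [← mul_sum, sum_const, hcard, smul_eq_mul] at h2
      have h3 : (Nat.card V - 1) * (3 * Nat.card V ^ 2) = 3 * Nat.card V ^ 2 * (Nat.card V - 1) := by
        ring
      omega
    have h2 := prod_le (E := E) f
    set a := Nat.card {x : V // AA E f x}
    set b := Nat.card {x : V // BB E f x}
    have ha : 0 < a := by
      rcases Nat.eq_zero_or_pos a with h | h
      · rw [h, zero_mul, mul_zero] at hf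
        have : 0 < Nat.card V ^ 2 := by positivity
        omega
      · exact h
    have h3 : a * (b + 3) = a * b + 3 * a := by ring
    omega
  · -- a large value group
    push Not at hsm
    obtain ⟨u, hu, hlt⟩ := hsm
    have h1 := big hE hnr u
    obtain ⟨z, hz⟩ := hrd u hu
    have e1 := card_sub (VE hE u)
    have e2 := card_V (V := V)
    have hlt' : finrank (ZMod 2) (VE hE u) < finrank (ZMod 2) V := by
      refine finrank_lt ?_
      intro htop
      have : z ∈ VE hE u := by rw [htop]; exact mem_top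
      exact hz ((mem_VE hE).1 this)
    set m := finrank (ZMod 2) (VE hE u)
    set n := finrank (ZMod 2) V
    have h3 : n < m + 3 := by
      rw [e1, e2] at hlt
      have h4 : 2 ^ n < 2 ^ (m + 3) := by rw [pow_add]; omega
      exact (Nat.pow_lt_pow_iff_right (by norm_num)).1 h4
    have h5 : n = m + 1 ∨ n = m + 2 := by omega
    rw [e1, e2] at h1
    rw [e2]
    have hp : 0 < 2 ^ m := by positivity
    rcases h5 with h5 | h5
    · rw [h5, pow_succ 2 m] at h1 ⊢
      have h6 : 2 ^ m * 2 - 2 ^ m = 2 ^ m := by omega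
      rw [h6] at h1
      have h7 : (2 ^ m * 2) ^ 2 = 4 * (2 ^ m * 2 ^ m) := by ring
      rw [h7]
      omega
    · rw [h5, pow_add 2 m 2] at h1 ⊢
      have h6 : 2 ^ m * 2 ^ 2 - 2 ^ m = 3 * 2 ^ m := by omega
      rw [h6] at h1
      have h7 : (2 ^ m * 2 ^ 2) ^ 2 = 16 * (2 ^ m * 2 ^ m) := by ring
      have h8 : 2 ^ m * (3 * 2 ^ m) = 3 * (2 ^ m * 2 ^ m) := by ring
      rw [h8] at h1
      rw [h7]
      omega

end Pool.Agent.N908.FR2
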