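import Pool.Agent.N908.FR2.Slope3

/-!
Value groups of index at least `2 ^ c` give about `(c + 1) n` relations: induction over quotients.
-/

set_option autoImplicit false

open Module Submodule Finset

namespace Pool.Agent.N908.FR2

open Pool.Agent.N908.FR

universe u

section
variable {V V' V'' : Type u} [AddCommGroup V] [Module (ZMod 2) V] [AddCommGroup V']
  [Module (ZMod 2) V'] [AddCommGroup V''] [Module (ZMod 2) V'']

/-- the relation which belongs to a space of tensors -/
def ER (R : Submodule (ZMod 2) (Dual (ZMod 2) V →ₗ[ZMod 2] V)) (x y : V) : Prop := w x y ∈ R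

lemma w_self (x : V) : w (k := ZMod 2) x x = 0 := by
  ext f
  rw [w2, dbl]
  rfl

lemma w_symm (x y : V) : w (k := ZMod 2) x y = w y x := by
  ext f
  rw [w2, w2, add_comm]

lemma w_add (x y z : V) : w (k := ZMod 2) x (y + z) = w x y + w x z := by
  ext f
  rw [LinearMap.add_apply, w2, w2, w2, map_add, smul_add, add_smul]
  abel

lemma w_zero (x : V) : w (k := ZMod 2) x 0 = 0 := by
  ext f
  rw [w2]
  simp

lemma rlnER (R : Submodule (ZMod 2) (Dual (ZMod 2) V →ₗ[ZMod 2] V)) : Rln (ER R) where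
  self x := by rw [ER, w_self]; exact zero_mem _
  symm x y h := by rw [ER, w_symm]; exact h
  add x y z h h' := by rw [ER, w_add]; exact add_mem h h'

lemma rel_le (R : Submodule (ZMod 2) (Dual (ZMod 2) V →ₗ[ZMod 2] V)) :
    Rel (k := ZMod 2) (ER R) ⊤ ≤ R := by
  unfold Pool.Agent.N908.FR.Rel
  rw [span_le]
  rintro φ ⟨x, -, y, -, h, rfl⟩
  exact h

/-- push forward -/
def push (π : V →ₗ[ZMod 2] V') :
    (Dual (ZMod 2) V →ₗ[ZMod 2] V) →ₗ[ZMod 2] (Dual (ZMod 2) V' →ₗ[ZMod 2] V') where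
  toFun φ := π ∘ₗ φ ∘ₗ π.dualMap
  map_add' φ ψ := by ext f; simp
  map_smul' c φ := by ext f; simp

lemma push_w (π : V →ₗ[ZMod 2] V') (x y : V) :
    push π (w (k := ZMod 2) x y) = w (π x) (π y) := by
  ext f
  show π (w x y (π.dualMap f)) = _
  rw [w2, w2, map_add, map_smul, map_smul]
  rfl

lemma push_comp (π : V →ₗ[ZMod 2] V') (π' : V' →ₗ[ZMod 2] V'') :
    push (π' ∘ₗ π) = push π' ∘ₗ push π := by
  ext φ f
  rfl

lemma push_id : push (LinearMap.id : V →ₗ[ZMod 2] V) = LinearMap.id := by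
  ext φ f
  rfl

variable [Finite V] [Finite V']

instance finHom : Finite (Dual (ZMod 2) V →ₗ[ZMod 2] V) := Module.finite_of_finite (ZMod 2)

lemma rel_card (R : Submodule (ZMod 2) (Dual (ZMod 2) V →ₗ[ZMod 2] V)) :
    Nat.card (Rel (k := ZMod 2) (ER R) ⊤) ≤ Nat.card R :=
  Nat.card_le_card_of_injective (fun x => (⟨x.1, rel_le R x.2⟩ : R)) fun _ _ h =>
    Subtype.ext (congrArg (fun z : R => z.1) h)

/-- the relations with a given element, and the relations modulo it -/
theorem push_card (R : Submodule (ZMod 2) (Dual (ZMod 2) V →ₗ[ZMod 2] V))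
    (π : V →ₗ[ZMod 2] V') {a : V} (ha : a ≠ 0) (hπ : π a = 0) :
    Nat.card (VE (rlnER R) a) * Nat.card (R.map (push π)) ≤ 2 * Nat.card R := by
  have ha' : a ∉ (⊥ : Submodule (ZMod 2) V) := fun h => ha ((mem_bot (ZMod 2)).1 h)
  obtain ⟨f₀, -, hf₀⟩ := exists_form ha'
  have hex : ∀ ρ : R.map (push π), ∃ σ ∈ R, push π σ = ρ.1 := fun ρ => ρ.2
  choose σ hσ hσ' using hex
  have hc : 2 * Nat.card R = Nat.card (R × ZMod 2) := by
    rw [Nat.card_prod, Nat.card_zmod, mul_comm]
  rw [hc, ← Nat.card_prod]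
  refine Nat.card_le_card_of_injective
    (fun p => ((⟨w a p.1.1 + σ p.2, add_mem p.1.2 (hσ _)⟩ : R), f₀ p.1.1)) ?_
  rintro ⟨b, ρ⟩ ⟨b', ρ'⟩ h
  have h1 : w (k := ZMod 2) a b.1 + σ ρ = w a b'.1 + σ ρ' :=
    congrArg (fun p : R × ZMod 2 => p.1.1) h
  have h2 : f₀ b.1 = f₀ b'.1 := congrArg (fun p : R × ZMod 2 => p.2) h
  have hz : ∀ c : V, push π (w (k := ZMod 2) a c) = 0 := by
    intro c
    rw [push_w, hπ, w_symm, w_zero]
  have h3 : ρ = ρ' := by
    apply Subtype.ext
    rw [← hσ', ← hσ']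
    have := congrArg (push π) h1
    rwa [map_add, map_add, hz, hz, zero_add, zero_add] at this
  subst h3
  have h4 : w (k := ZMod 2) a b.1 = w a b'.1 := add_right_cancel h1
  have h5 : b.1 = b'.1 := by
    have e : w (k := ZMod 2) a b.1 f₀ = w (k := ZMod 2) a b'.1 f₀ := by rw [h4]
    rw [w2, w2, hf₀, one_smul, one_smul, h2] at e
    exact add_right_cancel e
  rw [Subtype.ext h5]

end

/-- the constant -/
def kk (d c : ℕ) : ℕ := (c + 1) * d + 2 * c ^ 2 + 4 * c + 3

/-- **induction over quotients** -/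
theorem quot_ind (d : ℕ) : ∀ (c : ℕ) (V : Type u) [AddCommGroup V] [Module (ZMod 2) V] [Finite V]
    (R : Submodule (ZMod 2) (Dual (ZMod 2) V →ₗ[ZMod 2] V)),
    (∀ (V' : Type u) [AddCommGroup V'] [Module (ZMod 2) V'] [Finite V'] (π : V →ₗ[ZMod 2] V'),
      Function.Surjective π → Nat.card V ≤ 2 ^ c * Nat.card V' →
      Nat.card V' ≤ 2 ^ d * Nat.card {x : V' // Cov (ER (R.map (push π))) x}) →
    Nat.card V ^ (c + 1) ≤ 2 ^ kk d c * Nat.card R
  | 0, V, _, _, _, R, h => by
    have h1 := h V LinearMap.id Function.surjective_id (by simp)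
    rw [push_id, Submodule.map_id] at h1
    have h2 := last_le (E := ER R) (⊤ : Submodule (ZMod 2) V)
    have h3 := rel_card R
    have h4 : Nat.card {x : V // Cov (ER R) x} ≤ Nat.card {z : V // BH (ER R) ⊤ z} :=
      Nat.card_le_card_of_injective (fun x => (⟨x.1, x.2.1, mem_top, by
        obtain ⟨y, y1, y2, y3⟩ := x.2.2
        exact ⟨y, mem_top, y1, y2, y3⟩⟩ : {z : V // BH (ER R) ⊤ z})) fun x y h =>
        Subtype.ext (congrArg (fun z : {z : V // BH (ER R) ⊤ z} => z.1) h)
    rw [zero_add, pow_one]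
    calc Nat.card V ≤ 2 ^ d * Nat.card {x : V // Cov (ER R) x} := h1
      _ ≤ 2 ^ d * (4 * Nat.card R) := Nat.mul_le_mul_left _ (by omega)
      _ ≤ 2 ^ d * (8 * Nat.card R) := Nat.mul_le_mul_left _ (by omega)
      _ = _ := by rw [kk]; ring
  | c + 1, V, _, _, _, R, h => by
    have hR : 0 < Nat.card R := Nat.card_pos
    by_cases hsm : ∀ u : V, u ≠ 0 →
        2 ^ (d + 1 + 2 * (c + 1)) * Nat.card (VE (rlnER R) u) ≤ Nat.card V
    · have h1 := h V LinearMap.id Function.surjective_id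
        (Nat.le_mul_of_pos_left _ (by positivity))
      rw [push_id, Submodule.map_id] at h1
      have h2 := slope' (rlnER R) (c + 1) d hsm h1
      calc _ ≤ _ := h2
        _ ≤ 2 ^ kk d (c + 1) * Nat.card (Rel (k := ZMod 2) (ER R) ⊤) :=
            Nat.mul_le_mul_right _ (Nat.pow_le_pow_right (by norm_num) (by rw [kk]; nlinarith))
        _ ≤ _ := Nat.mul_le_mul_left _ (rel_card R)
    · push Not at hsm
      obtain ⟨a, ha, hlt⟩ := hsm
      let π : V →ₗ[ZMod 2] (V ⧸ span (ZMod 2) {a}) := (span (ZMod 2) {a}).mkQ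
      have hπa : π a = 0 := by
        show (span (ZMod 2) {a}).mkQ a = 0
        rw [mkQ_apply, Submodule.Quotient.mk_eq_zero]
        exact mem_span_singleton_self a
      have hs : Function.Surjective π := mkQ_surjective _
      have hfq : Finite (V ⧸ span (ZMod 2) {a}) := Finite.of_surjective _ hs
      have hcard : Nat.card V = 2 * Nat.card (V ⧸ span (ZMod 2) {a}) := by
        rw [Submodule.card_eq_card_quotient_mul_card (span (ZMod 2) {a}), card_sub,
          finrank_span_singleton ha, pow_one, mul_comm]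
      have ih := quot_ind d c (V ⧸ span (ZMod 2) {a}) (R.map (push π)) (by
        intro V'' _ _ _ π' hπ' hc
        have h2 := h V'' (π' ∘ₗ π) (hπ'.comp hs) (by
          rw [hcard, pow_succ]
          calc 2 * Nat.card (V ⧸ span (ZMod 2) {a}) ≤ 2 * (2 ^ c * Nat.card V'') :=
                Nat.mul_le_mul_left _ hc
            _ = _ := by ring)
        rwa [push_comp, Submodule.map_comp] at h2)
      have h3 := push_card R π ha hπa
      set N' := Nat.card (V ⧸ span (ZMod 2) {a})
      set r' := Nat.card (R.map (push π))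
      set v := Nat.card (VE (rlnER R) a)
      calc Nat.card V ^ (c + 1 + 1) = Nat.card V * Nat.card V ^ (c + 1) := pow_succ' _ _
        _ = Nat.card V * (2 ^ (c + 1) * N' ^ (c + 1)) := by
            conv_lhs => rw [hcard]
            rw [mul_pow, ← hcard]
        _ ≤ (2 ^ (d + 1 + 2 * (c + 1)) * v) * (2 ^ (c + 1) * (2 ^ kk d c * r')) :=
            Nat.mul_le_mul hlt.le (Nat.mul_le_mul_left _ ih)
        _ = 2 ^ (d + 1 + 2 * (c + 1) + (c + 1) + kk d c) * (v * r') := by
            rw [pow_add, pow_add]; ring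
        _ ≤ 2 ^ (d + 1 + 2 * (c + 1) + (c + 1) + kk d c) * (2 * Nat.card R) :=
            Nat.mul_le_mul_left _ h3
        _ = 2 ^ (d + 1 + 2 * (c + 1) + (c + 1) + kk d c + 1) * Nat.card R := by
            rw [pow_succ]; ring
        _ ≤ _ := Nat.mul_le_mul_right _ (Nat.pow_le_pow_right (by norm_num)
            (by rw [kk, kk]; nlinarith))

end Pool.Agent.N908.FR2
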