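import Pool.Agent.N908.FR2.Slope2
import Pool.Agent.N908.FR2.Lin
import Pool.Agent.N88.FR.Elem

/-!
Quaternionic structures with `-1 = 1`: the number of symbols of structures without rigid elements
and without radical.
-/

set_option autoImplicit false

open Module

namespace Pool.Agent.N908.FR2

open Pool.Agent.N908.FR Pool.Agent.H315R3.ETC Pool.Agent.Y920.ETC Pool.Agent.N88.FR

variable {S : QData}

/-- the structure of a vector space -/
@[instance_reducible] noncomputable def vmod (h : IsQuat S) : Module (ZMod 2) (Additive S.G) :=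
  AddCommGroup.zmodModule (n := 2) fun x => by
    rw [two_nsmul]
    exact congrArg Additive.ofMul (h.exp2 x.toMul)

/-- the relation `q(x,y) = 0` -/
def Eq0 (S : QData) (x y : Additive S.G) : Prop := S.q x.toMul y.toMul = S.zero

lemma rln (h : IsQuat S) (hne : S.neg = 1) :
    @Rln (Additive S.G) _ (Eq0 S) where
  self x := by
    have := h.qs1 x.toMul
    rw [hne, one_mul] at this
    exact this
  symm x y hxy := (h.qs2 _ _).trans hxy
  add x y z hy hz := by
    show S.q x.toMul (y.toMul * z.toMul) = S.zero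
    rw [← h.qs3]
    exact hy.trans hz.symm

/-- no rigid elements, no radical -/
def Core (S : QData) : Prop := ∀ a : S.G, a ≠ 1 →
  (∃ b, S.q a b = S.zero ∧ b ≠ 1 ∧ b ≠ a) ∧ ∃ b, S.q a b ≠ S.zero

/-- symbols and relations -/
theorem numSy_mul (h : IsQuat S) (hne : S.neg = 1) [Finite S.G] {n : ℕ}
    (hn : Nat.card S.G = 2 ^ n) : letI := vmod h
    ∃ r : ℕ, Nat.card (Rel (k := ZMod 2) (Eq0 S) ⊤) = 2 ^ r ∧ numSy S * 2 ^ r ≤ 2 ^ n.choose 2 := by
  letI := vmod h
  have hfin : Finite (Additive S.G) := inferInstanceAs (Finite S.G)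
  have hdim : finrank (ZMod 2) (Additive S.G) = n := by
    have h1 := card_V (V := Additive S.G)
    have h2 : Nat.card (Additive S.G) = 2 ^ n := hn
    rw [h2] at h1
    exact (Nat.pow_right_injective (le_refl 2) h1).symm
  have hfW : Finite (Dual (ZMod 2) (Additive S.G) →ₗ[ZMod 2] Additive S.G) :=
    Module.finite_of_finite (ZMod 2)
  refine ⟨finrank (ZMod 2) (Rel (k := ZMod 2) (Eq0 S) ⊤), ?_, ?_⟩
  · rw [Module.natCard_eq_pow_finrank (K := ZMod 2) (V := Rel (k := ZMod 2) (Eq0 S) ⊤),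
      Nat.card_zmod]
  · have h1 := forms_le (k := ZMod 2) hdim (Eq0 S)
    set f := finrank (ZMod 2) (Forms (ZMod 2) (Eq0 S)) with hf
    set r := finrank (ZMod 2) (Rel (k := ZMod 2) (Eq0 S) ⊤)
    have h2 : f + r ≤ n.choose 2 := by
      have h3 : n.choose 2 = n * (n - 1) / 2 := Nat.choose_two_right n
      rw [h3, Nat.le_div_iff_mul_le (by norm_num), Nat.mul_sub, mul_one]
      omega
    have h3 : numSy S ≤ 2 ^ f := by
      have e1 : Nat.card (Forms (ZMod 2) (Eq0 S)) = 2 ^ f := by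
        letI : AddCommGroup (Forms (ZMod 2) (Eq0 S)) := Module.addCommMonoidToAddCommGroup (ZMod 2)
        have h0 := Module.natCard_eq_pow_finrank (K := ZMod 2) (V := Forms (ZMod 2) (Eq0 S))
        rwa [Nat.card_zmod] at h0
      rw [← e1]
      have : Finite (Forms (ZMod 2) (Eq0 S)) := Module.finite_of_finite (ZMod 2)
      have hex : ∀ χ : {χ : S.G → S.G → ZMod 2 // IsSy S χ}, ∃ β ∈ Forms (ZMod 2) (Eq0 S),
          ∀ a b : S.G, β (Additive.ofMul a) (Additive.ofMul b) = χ.1 a b := by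
        rintro ⟨χ, c1, c2, c3⟩
        let β₁ : Additive S.G → (Additive S.G →ₗ[ZMod 2] ZMod 2) := fun x =>
          AddMonoidHom.toZModLinearMap 2
            (AddMonoidHom.mk' (fun y => χ x.toMul y.toMul) fun y z => c2 _ _ _)
        let β : Additive S.G →ₗ[ZMod 2] Additive S.G →ₗ[ZMod 2] ZMod 2 :=
          AddMonoidHom.toZModLinearMap 2 (AddMonoidHom.mk' β₁ fun x y => by
            refine LinearMap.ext fun z => ?_
            rw [LinearMap.add_apply]
            exact c1 _ _ _)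
        refine ⟨β, mem_Forms.2 ⟨fun x => c3 _ _ ((rln h hne).self x), fun x y hxy => c3 _ _ hxy⟩,
          fun a b => rfl⟩
      choose F hF hF' using hex
      refine Nat.card_le_card_of_injective (fun χ => (⟨F χ, hF χ⟩ : Forms (ZMod 2) (Eq0 S))) ?_
      intro χ χ' he
      have h2 : F χ = F χ' := congrArg Subtype.val he
      apply Subtype.ext
      funext a b
      rw [← hF', ← hF', h2]
    calc numSy S * 2 ^ r ≤ 2 ^ f * 2 ^ r := Nat.mul_le_mul_right _ h3
      _ = 2 ^ (f + r) := (pow_add _ _ _).symm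
      _ ≤ _ := Nat.pow_le_pow_right (by norm_num) h2

/-- **structures without rigid elements and without radical have at least `2n - 5` relations** -/
theorem core_bound (h : IsQuat S) (hne : S.neg = 1) [Finite S.G] {n : ℕ}
    (hn : Nat.card S.G = 2 ^ n) (hc : Core S) : 4 ^ n * numSy S ≤ 2 ^ (n.choose 2 + 5) := by
  letI := vmod h
  have hfin : Finite (Additive S.G) := inferInstanceAs (Finite S.G)
  obtain ⟨r, hr, hnum⟩ := numSy_mul h hne hn
  have h1 := sq_lt (V := Additive S.G) (rln h hne) (fun x hx => by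
    obtain ⟨b, b1, b2, b3⟩ := (hc x.toMul (fun e => hx e)).1
    exact ⟨Additive.ofMul b, b1, fun e => b2 e, fun e => b3 e⟩)
    (fun x hx => by
      obtain ⟨b, hb⟩ := (hc x.toMul (fun e => hx e)).2
      exact ⟨Additive.ofMul b, hb⟩)
  have h2 : Nat.card (Additive S.G) = 2 ^ n := hn
  rw [hr, h2] at h1
  have h3 : 2 * n ≤ r + 5 := by
    have e1 : (2 ^ n) ^ 2 = 2 ^ (n * 2) := (pow_mul _ _ _).symm
    have e2 : 64 * 2 ^ r = 2 ^ (r + 6) := by rw [pow_add]; ring
    rw [e1, e2] at h1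
    have := (Nat.pow_lt_pow_iff_right (by norm_num : 1 < 2)).1 h1
    omega
  have e4 : (4 : ℕ) ^ n = 2 ^ (2 * n) := by rw [pow_mul]; norm_num
  calc 4 ^ n * numSy S ≤ 2 ^ (r + 5) * numSy S := by
        rw [e4]
        exact Nat.mul_le_mul_right _ (Nat.pow_le_pow_right (by norm_num) h3)
    _ = numSy S * 2 ^ r * 2 ^ 5 := by rw [pow_add]; ring
    _ ≤ 2 ^ n.choose 2 * 2 ^ 5 := Nat.mul_le_mul_right _ hnum
    _ = _ := (pow_add _ _ _).symm

/-- the order of the value group -/
lemma card_VE (h : IsQuat S) (hne : S.neg = 1) (a : S.G) : letI := vmod h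
    Nat.card (VE (rln h hne) (Additive.ofMul a)) = {b : S.G | S.q a b = S.zero}.ncard := rfl

/-- **structures whose value groups have large index have many relations** -/
theorem index_bound (h : IsQuat S) (hne : S.neg = 1) [Finite S.G] {n : ℕ}
    (hn : Nat.card S.G = 2 ^ n) (s : ℕ) (hs : 1 ≤ s)
    (hc : ∀ a : S.G, a ≠ 1 → (∃ b, S.q a b = S.zero ∧ b ≠ 1 ∧ b ≠ a) ∧
      2 * 4 ^ s * {b : S.G | S.q a b = S.zero}.ncard ≤ 2 ^ n) (h1 : ∃ a : S.G, a ≠ 1) :
    2 ^ (s * n + 1) * numSy S ≤ 2 ^ (n.choose 2 + s * (s + 1)) := by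
  letI := vmod h
  have hfin : Finite (Additive S.G) := inferInstanceAs (Finite S.G)
  obtain ⟨r, hr, hnum⟩ := numSy_mul h hne hn
  have h2 : Nat.card (Additive S.G) = 2 ^ n := hn
  obtain ⟨t, rfl⟩ : ∃ t, s = t + 1 := ⟨s - 1, by omega⟩
  have h1 := slope (V := Additive S.G) (rln h hne) (fun x hx => by
    obtain ⟨b, b1, b2, b3⟩ := (hc x.toMul (fun e => hx e)).1
    exact ⟨Additive.ofMul b, b1, fun e => b2 e, fun e => b3 e⟩) t
    (fun x hx => by
      rw [h2]
      exact (hc x.toMul (fun e => hx e)).2)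
    (by
      obtain ⟨a, ha⟩ := h1
      exact ⟨Additive.ofMul a, fun e => ha e⟩)
  rw [hr, h2] at h1
  have h3 : (t + 1) * n + 1 ≤ (t + 1) * (t + 2) + r := by
    rw [← pow_mul, ← pow_add] at h1
    have := (Nat.pow_lt_pow_iff_right (by norm_num : 1 < 2)).1 h1
    have e : n * (t + 1) = (t + 1) * n := mul_comm _ _
    omega
  calc 2 ^ ((t + 1) * n + 1) * numSy S ≤ 2 ^ ((t + 1) * (t + 2) + r) * numSy S :=
        Nat.mul_le_mul_right _ (Nat.pow_le_pow_right (by norm_num) h3)
    _ = numSy S * 2 ^ r * 2 ^ ((t + 1) * (t + 2)) := by rw [pow_add]; ring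
    _ ≤ 2 ^ n.choose 2 * 2 ^ ((t + 1) * (t + 2)) := Nat.mul_le_mul_right _ hnum
    _ = _ := (pow_add _ _ _).symm

end Pool.Agent.N908.FR2
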