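import Pool.Agent.N908.FR2.App

/-!
Structures which are not group extensions.
-/

set_option autoImplicit false

open Module

namespace Pool.Agent.N908.FR2

open Pool.Agent.N908.FR Pool.Agent.H315R3.ETC Pool.Agent.Y920.ETC Pool.Agent.N88.FR

variable {S : QData}

/-- a rigid element gives a group extension -/
theorem ext_of_rigid (h : IsQuat S) (hne : S.neg = 1) [Finite S.G] {a : S.G} (ha : a ≠ 1)
    (hr : ∀ b, S.q a b = S.zero → b ≠ 1 → b = a) : ∃ T : QData, IsQuat T ∧ Iso (ext T) S := by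
  have hHr : Hr S a := by
    intro e he
    by_cases h1 : e = 1
    · exact Or.inl h1
    · right
      rw [hne, one_mul]
      exact hr e he h1
  have hb : Bi S a := ⟨ha, by rwa [hne], hHr, by rw [hne, one_mul]; exact hHr⟩
  obtain ⟨T, h1, -, -, h2, -⟩ := bi_ext h hb
  exact ⟨T, h1, h2⟩

lemma numSy_le_one (h : IsQuat S) (hne : S.neg = 1) (hn : Nat.card S.G = 2 ^ 0) :
    numSy S ≤ 1 := by
  have hfin0 : Finite S.G := Nat.finite_of_card_ne_zero (by rw [hn]; positivity)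
  obtain ⟨r, -, h1⟩ := numSy_mul h hne hn
  have h2 : (0 : ℕ).choose 2 = 0 := rfl
  rw [h2, pow_zero] at h1
  have h3 : 1 ≤ 2 ^ r := Nat.one_le_two_pow
  calc numSy S = numSy S * 1 := (mul_one _).symm
    _ ≤ numSy S * 2 ^ r := Nat.mul_le_mul_left _ h3
    _ ≤ 1 := h1

/-- structures which are not group extensions -/
theorem not_ext (h : IsQuat S) (hne : S.neg = 1) {n : ℕ} (hn : Nat.card S.G = 2 ^ n)
    (hx : ¬ ∃ T : QData, IsQuat T ∧ Iso (ext T) S) :
    ((∀ a : S.G, a ≠ 1 → ∃ b, S.q a b ≠ S.zero) →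
      4 ^ n * numSy S ≤ 2 ^ (n.choose 2 + 5)) ∧
    (∀ c : ℕ, 1 ≤ c →
      (∀ a : S.G, a ≠ 1 → 2 ^ c * {b : S.G | S.q a b = S.zero}.ncard ≤ 2 ^ n) →
      2 ^ ((c + 1) * n) * numSy S ≤ 2 ^ (n.choose 2 + (3 * c ^ 2 + 5 * c + 3))) ∧
    ∀ s : ℕ, 1 ≤ s →
      (∀ a : S.G, a ≠ 1 → 2 ^ (2 * s + 1) * {b : S.G | S.q a b = S.zero}.ncard ≤ 2 ^ n) →
      2 ^ (s * n + 1) * numSy S ≤ 2 ^ (n.choose 2 + s * (s + 1)) := by
  have hfin0 : Finite S.G := Nat.finite_of_card_ne_zero (by rw [hn]; positivity)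
  have hnr : ∀ a : S.G, a ≠ 1 → ∃ b, S.q a b = S.zero ∧ b ≠ 1 ∧ b ≠ a := by
    intro a ha
    by_contra hc
    push Not at hc
    exact hx (ext_of_rigid h hne ha hc)
  refine ⟨fun hr => core_bound h hne hn fun a ha => ⟨hnr a ha, hr a ha⟩, fun c hc1 hc =>
    index_bound2 h hne hn hc1 fun a ha => ⟨hnr a ha, hc a ha⟩, fun s hs hc => ?_⟩
  by_cases h1 : ∃ a : S.G, a ≠ 1
  · refine index_bound h hne hn s hs (fun a ha => ⟨hnr a ha, ?_⟩) h1
    have e : 2 * 4 ^ s = 2 ^ (2 * s + 1) := by rw [pow_succ, pow_mul]; norm_num; ring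
    rw [e]
    exact hc a ha
  · push Not at h1
    have h0 : n = 0 := by
      have : Nat.card S.G = 1 := by
        rw [Nat.card_eq_one_iff_unique]
        exact ⟨⟨fun a b => (h1 a).trans (h1 b).symm⟩, ⟨1⟩⟩
      rw [this] at hn
      by_contra h0
      have : 2 ^ 1 ≤ 2 ^ n := Nat.pow_le_pow_right (by norm_num) (by omega)
      omega
    subst h0
    have h2 := numSy_le_one h hne hn
    have h3 : 1 ≤ s * (s + 1) := Nat.mul_pos hs (by omega)
    calc 2 ^ (s * 0 + 1) * numSy S ≤ 2 ^ (s * 0 + 1) * 1 := Nat.mul_le_mul_left _ h2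
      _ = 2 ^ 1 := by simp
      _ ≤ _ := Nat.pow_le_pow_right (by norm_num) (by omega)

end Pool.Agent.N908.FR2
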