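import Pool.Agent.N908.FR2.Avg

/-!
Value groups of large index: `|V| ^ s < 2 ^ (s (s+1)) |R|`, by an average over flags.
-/

set_option autoImplicit false

open Module Submodule Finset

namespace Pool.Agent.N908.FR2

open Pool.Agent.N908.FR

universe u

/-- tuples -/
def T (V : Type u) : ℕ → Type u
  | 0 => V
  | s + 1 => V × T V s

variable {V : Type u} [AddCommGroup V] [Module (ZMod 2) V]

/-- the case of one element -/
def Sp0 (E : V → V → Prop) (z : V) (U : Submodule (ZMod 2) V) : Prop :=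
  z ≠ 0 ∧ ∃ y : V, E z y ∧ y ≠ 0 ∧ y ≠ z ∧ U = span (ZMod 2) {z, y}

/-- `U` is spanned by the tuple and elements `y` of the value groups, in general position -/
def Sp (E : V → V → Prop) : (s : ℕ) → T V s → Submodule (ZMod 2) V → Prop
  | 0, z, U => Sp0 E z U
  | s + 1, p, U => ∃ U', Sp E s p.2 U' ∧ ∃ y, E p.1 y ∧ y ∉ U' ⊔ span (ZMod 2) {p.1} ∧
      U = U' ⊔ span (ZMod 2) {p.1, y}

/-- the elements of the image of the contraction -/
def AH (E : V → V → Prop) (H : Submodule (ZMod 2) V) (f : Dual (ZMod 2) V) (z : V) : Prop :=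
  z ∈ H ∧ f z = 0 ∧ ∃ y ∈ H, E z y ∧ f y = 1

/-- the elements of `H` with a relation in `H` -/
def BH (E : V → V → Prop) (H : Submodule (ZMod 2) V) (z : V) : Prop :=
  z ≠ 0 ∧ z ∈ H ∧ ∃ y ∈ H, E z y ∧ y ≠ 0 ∧ y ≠ z

variable [Finite V]

/-- sum over flags -/
noncomputable def SumS (E : V → V → Prop) [Fintype (Dual (ZMod 2) V)] :
    ℕ → Submodule (ZMod 2) V → ℕ
  | 0, H => Nat.card {z : V // BH E H z}
  | s + 1, H => ∑ f : Dual (ZMod 2) V,
      Nat.card {z : V // AH E H f z} * SumS E s (H ⊓ LinearMap.ker f)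

variable {E : V → V → Prop}

omit [AddCommGroup V] [Module (ZMod 2) V] in
lemma finT : ∀ s, Finite (T V s)
  | 0 => inferInstanceAs (Finite V)
  | s + 1 => by
    have := finT s
    exact inferInstanceAs (Finite (V × T V s))

instance (s : ℕ) : Finite (T V s) := finT s

instance finRel (H : Submodule (ZMod 2) V) : Finite (Rel (k := ZMod 2) E H) := by
  have : Finite (Dual (ZMod 2) V →ₗ[ZMod 2] V) := Module.finite_of_finite (ZMod 2)
  infer_instance

/-- the step bound -/
theorem step_le (H : Submodule (ZMod 2) V) (f : Dual (ZMod 2) V) :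
    Nat.card {z : V // AH E H f z} * Nat.card (Rel (k := ZMod 2) E (H ⊓ LinearMap.ker f)) ≤
      Nat.card (Rel (k := ZMod 2) E H) := by
  classical
  have hK : ∀ φ ∈ Rel (k := ZMod 2) E (H ⊓ LinearMap.ker f), φ f = 0 := fun φ hφ =>
    apply_eq_zero (Rel_le E _ hφ) fun x hx => LinearMap.mem_ker.1 (mem_inf.1 hx).2
  have hex : ∀ x : {x : V // AH E H f x}, ∃ y, y ∈ H ∧ E x.1 y ∧ f y = 1 := fun x => x.2.2.2
  choose Y hY using hex
  rw [← Nat.card_prod]
  refine Nat.card_le_card_of_injective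
    (fun p => (⟨w p.1.1 (Y p.1) + p.2.1, add_mem (w_mem_Rel p.1.2.1 (hY p.1).1 (hY p.1).2.1)
      (Rel_mono E inf_le_left p.2.2)⟩ : Rel (k := ZMod 2) E H)) ?_
  rintro ⟨x, κ⟩ ⟨x₁, κ₁⟩ h0
  have h1 : w (k := ZMod 2) x.1 (Y x) + κ.1 = w x₁.1 (Y x₁) + κ₁.1 := congrArg Subtype.val h0
  have h2 : (w (k := ZMod 2) x.1 (Y x) + κ.1) f = (w (k := ZMod 2) x₁.1 (Y x₁) + κ₁.1) f := by
    rw [h1]
  rw [LinearMap.add_apply, LinearMap.add_apply, hK _ κ.2, hK _ κ₁.2, add_zero,
    add_zero, w2, w2, x.2.2.1, x₁.2.2.1, (hY x).2.2, (hY x₁).2.2, zero_smul, zero_smul, zero_add,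
    zero_add, one_smul, one_smul] at h2
  have h3 : x = x₁ := Subtype.ext h2
  subst h3
  exact Prod.ext rfl (Subtype.ext (add_left_cancel h1))

/-- the last bound -/
theorem last_le (H : Submodule (ZMod 2) V) :
    Nat.card {z : V // BH E H z} + 3 ≤ 3 * Nat.card (Rel (k := ZMod 2) E H) := by
  classical
  have : Fintype V := Fintype.ofFinite V
  have : Fintype (Rel (k := ZMod 2) E H) := Fintype.ofFinite _
  have hex : ∀ x : V, ∃ y, BH E H x → y ∈ H ∧ E x y ∧ y ≠ 0 ∧ y ≠ x := by
    intro x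
    by_cases hx : BH E H x
    · obtain ⟨y, hy⟩ := hx.2.2
      exact ⟨y, fun _ => hy⟩
    · exact ⟨0, fun h => absurd h hx⟩
  choose Y hY using hex
  let P : Finset V := univ.filter fun x => BH E H x
  let Φ : V → (Dual (ZMod 2) V →ₗ[ZMod 2] V) := fun x => w x (Y x)
  have hcP : #P = Nat.card {x : V // BH E H x} := by
    rw [Nat.card_eq_fintype_card, Fintype.card_subtype]
  have hsep : ∀ x, BH E H x → ∀ x', BH E H x' → Φ x = Φ x' →
      x' = x ∨ x' = Y x ∨ x' = x + Y x := by
    intro x hx x' hx' he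
    obtain ⟨y1, y2, y3, y4⟩ := hY x hx
    obtain ⟨z1, z2, z3, z4⟩ := hY x' hx'
    by_cases hin : x' ∈ span (ZMod 2) {x, Y x}
    · rw [mem_span2] at hin
      exact hin.resolve_left hx'.1
    exfalso
    obtain ⟨g, hg, hg1⟩ := exists_form hin
    have g1 : g x = 0 := hg x (subset_span (by simp))
    have g2 : g (Y x) = 0 := hg _ (subset_span (by simp))
    have h0 : Φ x g = Φ x' g := by rw [he]
    simp only [Φ] at h0
    rw [w2, w2, g1, g2, hg1, zero_smul, zero_smul, one_smul, zero_add] at h0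
    rcases c01 (g (Y x')) with h | h
    · rw [h, zero_smul, add_zero] at h0
      exact z3 h0.symm
    · rw [h, one_smul] at h0
      exact z4 (by rw [← add_cancel' (Y x') x', ← h0, zero_add])
  have himg : P.image Φ ⊆
      ((univ : Finset (Rel (k := ZMod 2) E H)).image Subtype.val).erase 0 := by
    intro ρ hρ
    obtain ⟨x, hx, rfl⟩ := mem_image.1 hρ
    have hx' : BH E H x := (mem_filter.1 hx).2
    obtain ⟨y1, y2, y3, y4⟩ := hY x hx'
    rw [mem_erase]
    refine ⟨fun h0 => ?_, mem_image.2 ⟨⟨Φ x, w_mem_Rel hx'.2.1 y1 y2⟩, mem_univ _, rfl⟩⟩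
    have hns : Y x ∉ span (ZMod 2) {x} := by
      rw [mem_span1]
      rintro (h | h)
      · exact y3 h
      · exact y4 h
    obtain ⟨g, hg, hg1⟩ := exists_form hns
    have g1 : g x = 0 := hg x (mem_span_singleton_self x)
    have h1 : Φ x g = 0 := by rw [h0]; rfl
    simp only [Φ] at h1
    rw [w2, g1, hg1, zero_smul, one_smul, zero_add] at h1
    exact hx'.1 h1
  have hc2 : #(P.image Φ) ≤ Nat.card (Rel (k := ZMod 2) E H) - 1 := by
    refine (card_le_card himg).trans ?_
    have h0 : (0 : Dual (ZMod 2) V →ₗ[ZMod 2] V) ∈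
        ((univ : Finset (Rel (k := ZMod 2) E H)).image Subtype.val) :=
      mem_image.2 ⟨⟨0, zero_mem _⟩, mem_univ _, rfl⟩
    rw [card_erase_of_mem h0,
      card_image_of_injective _ Subtype.val_injective, card_univ, Nat.card_eq_fintype_card]
  have hc3 : #P ≤ 3 * #(P.image Φ) := by
    refine card_le_mul_card_image (f := Φ) P 3 ?_
    intro ρ hρ
    obtain ⟨x, hx, rfl⟩ := mem_image.1 hρ
    have hx' : BH E H x := (mem_filter.1 hx).2
    refine (card_le_card (t := {x, Y x, x + Y x}) ?_).trans card_le_three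
    intro z hz
    obtain ⟨hz1, hz2⟩ := mem_filter.1 hz
    have := hsep x hx' z (mem_filter.1 hz1).2 hz2.symm
    simp only [mem_insert, mem_singleton]
    exact this
  have h3 : 0 < Nat.card (Rel (k := ZMod 2) E H) := Nat.card_pos
  rw [← hcP]
  omega

/-- upper bound for the sum over flags -/
theorem sumS_lt [Fintype (Dual (ZMod 2) V)] : ∀ (s : ℕ) (H : Submodule (ZMod 2) V),
    SumS E s H < 3 * Nat.card V ^ s * Nat.card (Rel (k := ZMod 2) E H)
  | 0, H => by
    have := last_le (E := E) H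
    rw [SumS, pow_zero, mul_one]
    omega
  | s + 1, H => by
    have hR : 0 < Nat.card (Rel (k := ZMod 2) E H) := Nat.card_pos
    have hV : 0 < Nat.card V := Nat.card_pos
    rw [SumS]
    have h1 : ∀ f ∈ (univ : Finset (Dual (ZMod 2) V)),
        Nat.card {z : V // AH E H f z} * SumS E s (H ⊓ LinearMap.ker f) <
          3 * Nat.card V ^ s * Nat.card (Rel (k := ZMod 2) E H) := by
      intro f _
      rcases Nat.eq_zero_or_pos (Nat.card {z : V // AH E H f z}) with h0 | h0
      · rw [h0, zero_mul]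
        positivity
      · calc Nat.card {z : V // AH E H f z} * SumS E s (H ⊓ LinearMap.ker f) <
              Nat.card {z : V // AH E H f z} * (3 * Nat.card V ^ s *
                Nat.card (Rel (k := ZMod 2) E (H ⊓ LinearMap.ker f))) :=
              Nat.mul_lt_mul_of_pos_left (sumS_lt s _) h0
          _ = 3 * Nat.card V ^ s * (Nat.card {z : V // AH E H f z} *
                Nat.card (Rel (k := ZMod 2) E (H ⊓ LinearMap.ker f))) := by ring
          _ ≤ _ := Nat.mul_le_mul_left _ (step_le H f)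
    have h2 := sum_lt_sum_of_nonempty (univ_nonempty (α := Dual (ZMod 2) V)) h1
    rw [sum_const, card_univ, ← Nat.card_eq_fintype_card, card_dual, smul_eq_mul] at h2
    calc _ < _ := h2
      _ = _ := by rw [pow_succ]; ring

/-- the number of linear forms which vanish on a subspace and not at a given vector -/
theorem card_forms' {U : Submodule (ZMod 2) V} {y : V} (hy : y ∉ U) :
    Nat.card V ≤ 2 * Nat.card U *
      Nat.card {f : Dual (ZMod 2) V // f ∈ U.dualAnnihilator ∧ f y = 1} := by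
  obtain ⟨f₀, h1, h2⟩ := exists_form hy
  have hf₀ : f₀ ∈ U.dualAnnihilator := (mem_dualAnnihilator _).2 h1
  have e1 : Nat.card V = Nat.card U * Nat.card U.dualAnnihilator := by
    rw [card_V, card_sub, card_V (V := U.dualAnnihilator), ← pow_add,
      Subspace.finrank_add_finrank_dualAnnihilator_eq]
  let F : U.dualAnnihilator → ZMod 2 ×
      {f : Dual (ZMod 2) V // f ∈ U.dualAnnihilator ∧ f y = 1} := fun f =>
    if h : f.1 y = 1 then (0, ⟨f.1, f.2, h⟩) else
      (1, ⟨f.1 + f₀, add_mem f.2 hf₀, by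
        rw [LinearMap.add_apply, (c01 (f.1 y)).resolve_right h, h2, zero_add]⟩)
  have hF : Function.Injective F := by
    intro f g hfg
    simp only [F] at hfg
    split_ifs at hfg with h3 h4 h4
    · rw [Prod.mk_inj, Subtype.mk.injEq] at hfg
      exact Subtype.ext hfg.2
    · have h5 : (0 : ZMod 2) = 1 := congrArg Prod.fst hfg
      exact absurd h5 (by decide)
    · have h5 : (1 : ZMod 2) = 0 := congrArg Prod.fst hfg
      exact absurd h5 (by decide)
    · rw [Prod.mk_inj, Subtype.mk.injEq] at hfg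
      exact Subtype.ext (add_right_cancel hfg.2)
  have e2 := Nat.card_le_card_of_injective F hF
  rw [Nat.card_prod, Nat.card_zmod] at e2
  rw [e1]
  calc Nat.card U * Nat.card U.dualAnnihilator ≤ Nat.card U * (2 * _) :=
        Nat.mul_le_mul_left _ e2
    _ = _ := by ring

end Pool.Agent.N908.FR2
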