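import Pool.Agent.N908.FR2.Slope

/-!
Value groups of large index: `|V| ^ s < 2 ^ (s (s+1)) |R|`, by an average over flags (continued).
-/

set_option autoImplicit false

open Module Submodule Finset

namespace Pool.Agent.N908.FR2

open Pool.Agent.N908.FR

universe u

variable {V : Type u} [AddCommGroup V] [Module (ZMod 2) V] [Finite V] {E : V → V → Prop}

lemma card_span1 (a : V) : Nat.card (span (ZMod 2) {a}) ≤ 2 := by
  rw [card_sub]
  have h1 : finrank (ZMod 2) (span (ZMod 2) ({a} : Set V)) ≤ 1 := by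
    have h := finrank_span_finset_le_card (R := ZMod 2) ({a} : Finset V)
    rw [Set.finrank, Finset.coe_singleton] at h
    exact h.trans (Finset.card_singleton a).le
  calc 2 ^ finrank (ZMod 2) (span (ZMod 2) {a}) ≤ 2 ^ 1 :=
        Nat.pow_le_pow_right (by norm_num) h1
    _ = 2 := by norm_num

lemma card_span2 (a b : V) : Nat.card (span (ZMod 2) {a, b}) ≤ 4 := by
  classical
  rw [card_sub]
  have h1 : finrank (ZMod 2) (span (ZMod 2) ({a, b} : Set V)) ≤ 2 := by
    have h := finrank_span_finset_le_card (R := ZMod 2) ({a, b} : Finset V)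
    rw [Set.finrank, Finset.coe_insert, Finset.coe_singleton] at h
    exact h.trans (Finset.card_le_two)
  calc 2 ^ finrank (ZMod 2) (span (ZMod 2) ({a, b} : Set V)) ≤ 2 ^ 2 :=
        Nat.pow_le_pow_right (by norm_num) h1
    _ = 4 := by norm_num

lemma card_sup (A B : Submodule (ZMod 2) V) :
    Nat.card (A ⊔ B : Submodule (ZMod 2) V) ≤ Nat.card A * Nat.card B := by
  rw [card_sub, card_sub, card_sub, ← pow_add]
  exact Nat.pow_le_pow_right (by norm_num) (finrank_add_le_finrank_add_finrank A B)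

/-- the size of the span -/
lemma Sp_card : ∀ (s : ℕ) (t : T V s) (U : Submodule (ZMod 2) V), Sp E s t U →
    Nat.card U ≤ 4 ^ (s + 1) ∧ ∃ u ∈ U, u ≠ 0
  | 0, z, U, h => by
    obtain ⟨h1, y, -, -, -, rfl⟩ := h
    exact ⟨by simpa using card_span2 _ _, _, subset_span (Set.mem_insert _ _), h1⟩
  | s + 1, p, U, h => by
    obtain ⟨U', h1, y, -, -, rfl⟩ := h
    obtain ⟨h2, u, h3, h4⟩ := Sp_card s p.2 U' h1
    refine ⟨(card_sup _ _).trans ?_, u, mem_sup_left h3, h4⟩
    rw [pow_succ]
    exact Nat.mul_le_mul h2 (card_span2 _ _)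

/-- the good tuples in `H` -/
def GT (E : V → V → Prop) (s : ℕ) (H : Submodule (ZMod 2) V) (t : T V s) : Prop :=
  ∃ U, U ≤ H ∧ Sp E s t U

/-- exponents -/
def ee : ℕ → ℕ
  | 0 => 0
  | s + 1 => ee s + (s + 2)

lemma ee_eq : ∀ s, 2 * ee s = s * (s + 3)
  | 0 => rfl
  | s + 1 => by
    rw [ee, mul_add, ee_eq s]
    ring

/-- lower bound for the sum over flags -/
theorem low [Fintype (Dual (ZMod 2) V)] : ∀ (s : ℕ) (H : Submodule (ZMod 2) V),
    Nat.card {t : T V s // GT E s H t} * Nat.card V ^ s ≤ 4 ^ ee s * SumS E s H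
  | 0, H => by
    rw [ee, pow_zero, pow_zero, mul_one, one_mul, SumS]
    refine Nat.card_le_card_of_injective
      (fun z : {t : T V 0 // GT E 0 H t} => (⟨z.1, ?_⟩ : {z : V // BH E H z})) ?_
    · obtain ⟨U, h1, h2, y, h3, h4, h5, rfl⟩ := z.2
      exact ⟨h2, h1 (subset_span (Set.mem_insert _ _)), y,
        h1 (subset_span (Set.mem_insert_of_mem _ (Set.mem_singleton _))), h3, h4, h5⟩
    · intro z z' h
      exact Subtype.ext (congrArg (fun x : {z : V // BH E H z} => x.1) h)
  | s + 1, H => by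
    classical
    have : Fintype V := Fintype.ofFinite V
    have : Fintype (T V s) := Fintype.ofFinite _
    set N := Nat.card V with hN
    let T3 : Finset (Dual (ZMod 2) V × (V × T V s)) :=
      univ.filter fun p => AH E H p.1 p.2.1 ∧ GT E s (H ⊓ LinearMap.ker p.1) p.2.2
    have h1 : #T3 = ∑ f : Dual (ZMod 2) V, Nat.card {z : V // AH E H f z} *
        Nat.card {t : T V s // GT E s (H ⊓ LinearMap.ker f) t} := by
      rw [card_eq_sum_card_fiberwise (f := Prod.fst) (t := univ) (fun _ _ => mem_univ _)]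
      refine sum_congr rfl fun f _ => ?_
      rw [Nat.card_eq_fintype_card, Nat.card_eq_fintype_card, Fintype.card_subtype,
        Fintype.card_subtype, ← card_product]
      refine card_bij (fun p _ => p.2) ?_ ?_ ?_
      · rintro ⟨g, x, x'⟩ hp
        simp only [T3, mem_filter, mem_univ, true_and] at hp
        obtain ⟨⟨a1, a2⟩, rfl⟩ := hp
        simp only [mem_product, mem_filter, mem_univ, true_and]
        exact ⟨a1, a2⟩
      · rintro ⟨g, x⟩ hp ⟨g', x'⟩ hp' he
        have e1 : g = f := (mem_filter.1 hp).2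
        have e2 : g' = f := (mem_filter.1 hp').2
        exact Prod.ext (e1.trans e2.symm) he
      · rintro ⟨x, x'⟩ hp
        simp only [mem_product, mem_filter, mem_univ, true_and] at hp
        refine ⟨(f, x, x'), ?_, rfl⟩
        simp only [T3, mem_filter, mem_univ, true_and, and_true]
        exact hp
    let g : V × T V s → Prop := fun q => GT E (s + 1) H (show T V (s + 1) from q)
    let G : Finset (V × T V s) := univ.filter g
    have hG : Nat.card {t : T V (s + 1) // GT E (s + 1) H t} = #G := by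
      have e : Nat.card {t : T V (s + 1) // GT E (s + 1) H t} =
        Nat.card {q : V × T V s // g q} := rfl
      rw [e, Nat.card_eq_fintype_card, Fintype.card_subtype]
    have h3 : N * #G ≤ 4 ^ (s + 2) * #T3 := by
      have e1 : ∑ q ∈ G, #(T3.filter fun p => p.2 = q) ≤ #T3 := by
        rw [card_eq_sum_card_fiberwise (s := T3) (f := Prod.snd) (t := univ)
          (fun _ _ => mem_univ _)]
        exact sum_le_sum_of_subset (subset_univ _)
      have e2 : ∑ _q ∈ G, N ≤ ∑ q ∈ G, 4 ^ (s + 2) * #(T3.filter fun p => p.2 = q) := by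
        refine sum_le_sum fun q hq => ?_
        obtain ⟨z, t⟩ := q
        obtain ⟨U, hUH, U', hSp, y, b1, b2, rfl⟩ := (mem_filter.1 hq).2
        have hUH' : U' ≤ H := le_sup_left.trans hUH
        have hzH : z ∈ H := hUH (mem_sup_right (subset_span (by simp)))
        have hyH : y ∈ H := hUH (mem_sup_right (subset_span (by simp)))
        have c1 : Nat.card (U' ⊔ span (ZMod 2) {z} : Submodule (ZMod 2) V) ≤ 4 ^ (s + 1) * 2 :=
          (card_sup _ _).trans (Nat.mul_le_mul (Sp_card s t U' hSp).1 (card_span1 z))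
        have c2 := card_forms' b2
        have c3 : Nat.card {f : Dual (ZMod 2) V //
            f ∈ (U' ⊔ span (ZMod 2) {z}).dualAnnihilator ∧ f y = 1} ≤
            #(T3.filter fun p => p.2 = (z, t)) := by
          rw [Nat.card_eq_fintype_card, Fintype.card_subtype]
          refine card_le_card_of_injOn (fun f => (f, z, t)) ?_ ?_
          · intro f hf
            obtain ⟨d1, d2⟩ := (mem_filter.1 (mem_coe.1 hf)).2
            rw [mem_dualAnnihilator] at d1
            rw [mem_coe, mem_filter, mem_filter]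
            refine ⟨⟨mem_univ _, ⟨hzH, d1 z (mem_sup_right (mem_span_singleton_self z)), y, hyH,
              b1, d2⟩, U', le_inf hUH' fun u hu => LinearMap.mem_ker.2 (d1 u (mem_sup_left hu)),
              hSp⟩, rfl⟩
          · intro f _ g _ he
            exact congrArg Prod.fst he
        calc N ≤ _ := c2
          _ ≤ 2 * (4 ^ (s + 1) * 2) * #(T3.filter fun p => p.2 = (z, t)) :=
              Nat.mul_le_mul (Nat.mul_le_mul_left _ c1) c3
          _ = _ := by rw [pow_succ 4 (s + 1)]; ring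
      rw [sum_const, ← mul_sum, smul_eq_mul] at e2
      calc N * #G = #G * N := mul_comm _ _
        _ ≤ _ := e2
        _ ≤ _ := Nat.mul_le_mul_left _ e1
    rw [hG, SumS]
    calc #G * N ^ (s + 1) = (N * #G) * N ^ s := by rw [pow_succ]; ring
      _ ≤ (4 ^ (s + 2) * #T3) * N ^ s := Nat.mul_le_mul_right _ h3
      _ = 4 ^ (s + 2) * ∑ f : Dual (ZMod 2) V, Nat.card {z : V // AH E H f z} *
            (Nat.card {t : T V s // GT E s (H ⊓ LinearMap.ker f) t} * N ^ s) := by
          rw [h1, mul_assoc, sum_mul]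
          congr 1
          exact sum_congr rfl fun f _ => by ring
      _ ≤ 4 ^ (s + 2) * ∑ f : Dual (ZMod 2) V, Nat.card {z : V // AH E H f z} *
            (4 ^ ee s * SumS E s (H ⊓ LinearMap.ker f)) :=
          Nat.mul_le_mul_left _ (sum_le_sum fun f _ => Nat.mul_le_mul_left _ (low s _))
      _ = _ := by
          rw [ee, pow_add, mul_sum, mul_sum]
          exact sum_congr rfl fun f _ => by ring

/-- the number of elements which extend a tuple -/
theorem card_fine (hE : Rln E) (hnr : ∀ x : V, x ≠ 0 → ∃ y, E x y ∧ y ≠ 0 ∧ y ≠ x) {q : ℕ}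
    (hq : ∀ u : V, u ≠ 0 → q * Nat.card (VE hE u) ≤ Nat.card V) (U : Submodule (ZMod 2) V)
    (hU : ∃ u ∈ U, u ≠ 0) :
    q * Nat.card V ≤
      q * Nat.card {z : V // ∃ y, E z y ∧ y ∉ U ⊔ span (ZMod 2) {z}} + Nat.card U * Nat.card V := by
  classical
  have : Fintype V := Fintype.ofFinite V
  set N := Nat.card V with hN
  have e1 : ∀ a : V, #(univ.filter fun x => E a x) = Nat.card (VE hE a) := by
    intro a
    have : Fintype (VE hE a) := Fintype.ofFinite _
    rw [Nat.card_eq_fintype_card, Fintype.card_subtype]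
    rfl
  have e2 : #(univ.filter fun z : V => ∃ y, E z y ∧ y ∉ U ⊔ span (ZMod 2) {z}) =
      Nat.card {z : V // ∃ y, E z y ∧ y ∉ U ⊔ span (ZMod 2) {z}} := by
    rw [Nat.card_eq_fintype_card, Fintype.card_subtype]
  have e3 := Finset.card_filter_add_card_filter_not (s := (univ : Finset V))
    (fun z => ∃ y, E z y ∧ y ∉ U ⊔ span (ZMod 2) {z})
  rw [card_univ, ← Nat.card_eq_fintype_card, e2] at e3
  have e4 : (univ.filter fun z : V => ¬ ∃ y, E z y ∧ y ∉ U ⊔ span (ZMod 2) {z}) ⊆
      (univ.filter fun u : V => u ∈ U ∧ u ≠ 0).biUnion fun u => univ.filter fun x => E u x := by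
    intro z hz
    simp only [mem_filter, mem_univ, true_and, not_exists, not_and, not_not] at hz
    simp only [mem_biUnion, mem_filter, mem_univ, true_and]
    by_cases hz0 : z = 0
    · obtain ⟨u, h1, h2⟩ := hU
      exact ⟨u, ⟨h1, h2⟩, hz0 ▸ hE.zero u⟩
    obtain ⟨y, y1, y2, y3⟩ := hnr z hz0
    have h1 := hz y y1
    rw [Submodule.mem_sup] at h1
    obtain ⟨u, hu, v, hv, huv⟩ := h1
    rw [mem_span1] at hv
    rcases hv with rfl | rfl
    · rw [add_zero] at huv
      subst huv
      exact ⟨u, ⟨hu, y2⟩, hE.symm _ _ y1⟩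
    · have h5 : u = y + v := by rw [← huv, add_cancel']
      refine ⟨u, ⟨hu, ?_⟩, hE.symm _ _ (h5 ▸ hE.add _ _ _ y1 (hE.self _))⟩
      rintro rfl
      rw [zero_add] at huv
      exact y3 huv.symm
  have e5 : q * #(univ.filter fun z : V => ¬ ∃ y, E z y ∧ y ∉ U ⊔ span (ZMod 2) {z}) ≤
      Nat.card U * N := by
    calc _ ≤ q * ∑ u ∈ univ.filter (fun u : V => u ∈ U ∧ u ≠ 0), #(univ.filter fun x => E u x) :=
          Nat.mul_le_mul_left _ ((card_le_card e4).trans card_biUnion_le)
      _ = ∑ u ∈ univ.filter (fun u : V => u ∈ U ∧ u ≠ 0), q * Nat.card (VE hE u) := by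
          rw [mul_sum]
          exact sum_congr rfl fun u _ => by rw [e1]
      _ ≤ ∑ _u ∈ univ.filter (fun u : V => u ∈ U ∧ u ≠ 0), N :=
          sum_le_sum fun u hu => hq u (mem_filter.1 hu).2.2
      _ = #(univ.filter (fun u : V => u ∈ U ∧ u ≠ 0)) * N := by rw [sum_const, smul_eq_mul]
      _ ≤ _ := by
          refine Nat.mul_le_mul_right _ ?_
          have : Fintype U := Fintype.ofFinite _
          have h6 : #(univ.filter fun u : V => u ∈ U) = Nat.card U := by
            rw [Nat.card_eq_fintype_card, Fintype.card_subtype]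
          rw [← h6]
          exact card_le_card fun u hu => by
            simp only [mem_filter, mem_univ, true_and] at hu ⊢
            exact hu.1
  calc q * N = q * Nat.card {z : V // ∃ y, E z y ∧ y ∉ U ⊔ span (ZMod 2) {z}} +
        q * #(univ.filter fun z : V => ¬ ∃ y, E z y ∧ y ∉ U ⊔ span (ZMod 2) {z}) := by
        rw [← mul_add, e3]
    _ ≤ _ := Nat.add_le_add_left e5 _

/-- most tuples are good -/
theorem card_GT (hE : Rln E) (hnr : ∀ x : V, x ≠ 0 → ∃ y, E x y ∧ y ≠ 0 ∧ y ≠ x) {q : ℕ}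
    (hq : ∀ u : V, u ≠ 0 → q * Nat.card (VE hE u) ≤ Nat.card V) (hV : ∃ u : V, u ≠ 0) :
    ∀ s : ℕ, 2 * q * Nat.card V ^ (s + 1) ≤
      2 * q * Nat.card {t : T V s // GT E s ⊤ t} + 4 ^ (s + 1) * Nat.card V ^ (s + 1)
  | 0 => by
    classical
    obtain ⟨u, hu⟩ := hV
    have h1 := hq u hu
    have h2 : 1 ≤ Nat.card (VE hE u) := Nat.card_pos
    have h3 : q ≤ Nat.card V := by nlinarith
    have : Fintype V := Fintype.ofFinite V
    have h4 : Nat.card V - 1 ≤ Nat.card {t : T V 0 // GT E 0 ⊤ t} := by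
      have e1 : Nat.card V - 1 = Nat.card {z : V // z ≠ 0} := by
        rw [Nat.card_eq_fintype_card, Nat.card_eq_fintype_card, Fintype.card_subtype,
          filter_ne' univ (0 : V), card_erase_of_mem (mem_univ _), card_univ]
      rw [e1]
      refine Nat.card_le_card_of_injective
        (fun z : {z : V // z ≠ 0} => (⟨z.1, ?_⟩ : {t : T V 0 // GT E 0 ⊤ t})) ?_
      · obtain ⟨y, y1, y2, y3⟩ := hnr z.1 z.2
        exact ⟨_, le_top, z.2, y, y1, y2, y3, rfl⟩
      · intro z z' h
        exact Subtype.ext (congrArg (fun x : {t : T V 0 // GT E 0 ⊤ t} => (x.1 : V)) h)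
    have h5 : 1 ≤ Nat.card V := Nat.card_pos
    rw [zero_add, pow_one, pow_one]
    have h6 : 2 * q * Nat.card V = 2 * q * (Nat.card V - 1) + 2 * q := by
      obtain ⟨m, hm⟩ : ∃ m, Nat.card V = m + 1 := ⟨Nat.card V - 1, by omega⟩
      rw [hm]
      simp only [Nat.add_sub_cancel]
      ring
    rw [h6]
    refine Nat.add_le_add (Nat.mul_le_mul_left _ h4) ?_
    omega
  | s + 1 => by
    classical
    have : Fintype V := Fintype.ofFinite V
    have : Fintype (T V s) := Fintype.ofFinite _
    set N := Nat.card V with hN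
    have ih := card_GT hE hnr hq hV s
    let g : V × T V s → Prop := fun p => GT E (s + 1) ⊤ (show T V (s + 1) from p)
    let G : Finset (V × T V s) := univ.filter g
    have hG : Nat.card {t : T V (s + 1) // GT E (s + 1) ⊤ t} = #G := by
      have e : Nat.card {t : T V (s + 1) // GT E (s + 1) ⊤ t} =
        Nat.card {q : V × T V s // g q} := rfl
      rw [e, Nat.card_eq_fintype_card, Fintype.card_subtype]
    have hG' : #(univ.filter fun t : T V s => GT E s ⊤ t) =
        Nat.card {t : T V s // GT E s ⊤ t} := by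
      rw [Nat.card_eq_fintype_card, Fintype.card_subtype]
    have h1 : Nat.card {t : T V s // GT E s ⊤ t} * (q * N) ≤
        q * #G + 4 ^ (s + 1) * N * Nat.card {t : T V s // GT E s ⊤ t} := by
      have e1 : ∑ t ∈ univ.filter (fun t : T V s => GT E s ⊤ t), #(G.filter fun p => p.2 = t) ≤
          #G := by
        rw [card_eq_sum_card_fiberwise (s := G) (f := Prod.snd) (t := univ)
          (fun _ _ => mem_univ _)]
        exact sum_le_sum_of_subset (subset_univ _)
      have e2 : ∑ _t ∈ univ.filter (fun t : T V s => GT E s ⊤ t), q * N ≤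
          ∑ t ∈ univ.filter (fun t : T V s => GT E s ⊤ t),
            (q * #(G.filter fun p => p.2 = t) + 4 ^ (s + 1) * N) := by
        refine sum_le_sum fun t ht => ?_
        obtain ⟨U, -, hU⟩ := (mem_filter.1 ht).2
        obtain ⟨c1, c2⟩ := Sp_card s t U hU
        refine (card_fine hE hnr hq U c2).trans (Nat.add_le_add (Nat.mul_le_mul_left _ ?_)
          (Nat.mul_le_mul_right _ c1))
        rw [Nat.card_eq_fintype_card, Fintype.card_subtype]
        refine card_le_card_of_injOn (fun z => (z, t)) ?_ ?_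
        · intro z hz
          obtain ⟨y, d1, d2⟩ := (mem_filter.1 (mem_coe.1 hz)).2
          rw [mem_coe, mem_filter, mem_filter]
          exact ⟨⟨mem_univ _, _, le_top, U, hU, y, d1, d2, rfl⟩, rfl⟩
        · intro f _ g _ he
          exact congrArg Prod.fst he
      rw [sum_const, sum_add_distrib, ← mul_sum, sum_const, smul_eq_mul, smul_eq_mul, hG'] at e2
      calc _ ≤ _ := e2
        _ ≤ q * #G + Nat.card {t : T V s // GT E s ⊤ t} * (4 ^ (s + 1) * N) :=
            Nat.add_le_add_right (Nat.mul_le_mul_left _ e1) _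
        _ = _ := by ring
    have h2 : Nat.card {t : T V s // GT E s ⊤ t} ≤ N ^ (s + 1) := by
      have e : ∀ s, Nat.card (T V s) = N ^ (s + 1) := by
        intro s
        induction s with
        | zero => simp [T, hN]
        | succ s ih =>
          have : Nat.card (T V (s + 1)) = Nat.card (V × T V s) := rfl
          rw [this, Nat.card_prod, ih, ← hN]
          ring
      rw [← e s]
      exact Nat.card_le_card_of_injective _ Subtype.val_injective
    rw [hG]
    set g₀ := Nat.card {t : T V s // GT E s ⊤ t}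
    set M := N ^ (s + 1)
    have e3 : N ^ (s + 1 + 1) = M * N := pow_succ _ _
    have e4 : 4 ^ (s + 1 + 1) = 4 * 4 ^ (s + 1) := by rw [pow_succ 4 (s + 1)]; ring
    rw [e3, e4]
    set F := 4 ^ (s + 1)
    have a1 := Nat.mul_le_mul_right N ih
    have a2 : F * N * g₀ ≤ F * N * M := Nat.mul_le_mul_left _ h2
    calc 2 * q * (M * N) = 2 * q * M * N := by ring
      _ ≤ (2 * q * g₀ + F * M) * N := a1
      _ = 2 * (g₀ * (q * N)) + F * M * N := by ring
      _ ≤ 2 * (q * #G + F * N * g₀) + F * M * N :=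
          Nat.add_le_add_right (Nat.mul_le_mul_left _ h1) _
      _ ≤ 2 * (q * #G + F * N * M) + F * M * N :=
          Nat.add_le_add_right (Nat.mul_le_mul_left _ (Nat.add_le_add_left a2 _)) _
      _ ≤ 2 * (q * #G + F * N * M) + F * M * N + F * M * N := Nat.le_add_right _ _
      _ = 2 * q * #G + 4 * F * (M * N) := by ring

/-- **value groups of large index give many relations** -/
theorem slope (hE : Rln E) (hnr : ∀ x : V, x ≠ 0 → ∃ y, E x y ∧ y ≠ 0 ∧ y ≠ x) (s : ℕ)
    (hq : ∀ u : V, u ≠ 0 → 2 * 4 ^ (s + 1) * Nat.card (VE hE u) ≤ Nat.card V)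
    (hV : ∃ u : V, u ≠ 0) :
    Nat.card V ^ (s + 1) < 2 ^ ((s + 1) * (s + 2)) * Nat.card (Rel (k := ZMod 2) E ⊤) := by
  classical
  have : Fintype (Dual (ZMod 2) V) := Fintype.ofFinite _
  have h1 := card_GT hE hnr hq hV s
  have h2 := low (E := E) s ⊤
  have h3 := sumS_lt (E := E) s ⊤
  set N := Nat.card V
  set g₀ := Nat.card {t : T V s // GT E s ⊤ t}
  set r := Nat.card (Rel (k := ZMod 2) E ⊤)
  set M := N ^ (s + 1)
  have hF : 0 < 4 ^ (s + 1) := by positivity
  have h4 : 3 * M ≤ 4 * g₀ := by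
    have e1 : 4 ^ (s + 1) * (4 * M) ≤ 4 ^ (s + 1) * (4 * g₀ + M) := by
      calc 4 ^ (s + 1) * (4 * M) = 2 * (2 * 4 ^ (s + 1)) * M := by ring
        _ ≤ _ := h1
        _ = _ := by ring
    have e2 := Nat.le_of_mul_le_mul_left e1 hF
    omega
  have hNs : 0 < N ^ s := pow_pos Nat.card_pos _
  have h5 : 3 * M * N ^ s < 4 * (4 ^ ee s * (3 * N ^ s * r)) := by
    calc 3 * M * N ^ s ≤ 4 * g₀ * N ^ s := Nat.mul_le_mul_right _ h4
      _ = 4 * (g₀ * N ^ s) := by ring
      _ ≤ 4 * (4 ^ ee s * SumS E s ⊤) := Nat.mul_le_mul_left _ h2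
      _ < _ := by
          refine Nat.mul_lt_mul_of_pos_left (Nat.mul_lt_mul_of_pos_left h3 (by positivity))
            (by norm_num)
  have h6 : 3 * N ^ s * M < 3 * N ^ s * (4 * 4 ^ ee s * r) := by
    calc _ = 3 * M * N ^ s := by ring
      _ < _ := h5
      _ = _ := by ring
  have h7 := lt_of_mul_lt_mul_left h6 (Nat.zero_le _)
  have h8 : 4 * 4 ^ ee s = 2 ^ ((s + 1) * (s + 2)) := by
    have e1 : (4 : ℕ) * 4 ^ ee s = 2 ^ (2 * (ee s + 1)) := by
      rw [pow_mul]
      norm_num
      rw [pow_succ]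
      ring
    rw [e1]
    congr 1
    have := ee_eq s
    nlinarith
  rw [← h8]
  exact h7

end Pool.Agent.N908.FR2
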