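import Pool.Agent.N908.FR2.Slope2

/-!
Partial coverings: value groups of large index give many relations when a positive proportion of
the elements is not rigid.
-/

set_option autoImplicit false

open Module Submodule Finset

namespace Pool.Agent.N908.FR2

open Pool.Agent.N908.FR

universe u

variable {V : Type u} [AddCommGroup V] [Module (ZMod 2) V]

/-- `x` is not rigid -/
def Cov (E : V → V → Prop) (x : V) : Prop := x ≠ 0 ∧ ∃ y, E x y ∧ y ≠ 0 ∧ y ≠ x

variable [Finite V] {E : V → V → Prop}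

/-- the number of elements which extend a tuple -/
theorem card_fine' (hE : Rln E) {q : ℕ}
    (hq : ∀ u : V, u ≠ 0 → q * Nat.card (VE hE u) ≤ Nat.card V) (U : Submodule (ZMod 2) V) :
    q * Nat.card {z : V // Cov E z} ≤
      q * Nat.card {z : V // ∃ y, E z y ∧ y ∉ U ⊔ span (ZMod 2) {z}} + Nat.card U * Nat.card V := by
  classical
  have : Fintype V := Fintype.ofFinite V
  set N := Nat.card V with hN
  have e1 : ∀ a : V, #(univ.filter fun x => E a x) = Nat.card (VE hE a) := by
    intro a
    have : Fintype (VE hE a) := Fintype.ofFinite _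
    rw [Nat.card_eq_fintype_card, Fintype.card_subtype]
    rfl
  have e2 : #(univ.filter fun z : V => ∃ y, E z y ∧ y ∉ U ⊔ span (ZMod 2) {z}) =
      Nat.card {z : V // ∃ y, E z y ∧ y ∉ U ⊔ span (ZMod 2) {z}} := by
    rw [Nat.card_eq_fintype_card, Fintype.card_subtype]
  have e3 : #(univ.filter fun z : V => Cov E z) = Nat.card {z : V // Cov E z} := by
    rw [Nat.card_eq_fintype_card, Fintype.card_subtype]
  have e4 : (univ.filter fun z : V => Cov E z) ⊆
      (univ.filter fun z : V => ∃ y, E z y ∧ y ∉ U ⊔ span (ZMod 2) {z}) ∪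
      (univ.filter fun u : V => u ∈ U ∧ u ≠ 0).biUnion fun u => univ.filter fun x => E u x := by
    intro z hz
    obtain ⟨hz0, y, y1, y2, y3⟩ := (mem_filter.1 hz).2
    rw [mem_union]
    by_cases hin : y ∈ U ⊔ span (ZMod 2) {z}
    · right
      simp only [mem_biUnion, mem_filter, mem_univ, true_and]
      rw [Submodule.mem_sup] at hin
      obtain ⟨u, hu, v, hv, huv⟩ := hin
      rw [mem_span1] at hv
      rcases hv with rfl | rfl
      · rw [add_zero] at huv
        subst huv
        exact ⟨u, ⟨hu, y2⟩, hE.symm _ _ y1⟩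
      · have h5 : u = y + v := by rw [← huv, add_cancel']
        refine ⟨u, ⟨hu, ?_⟩, hE.symm _ _ (h5 ▸ hE.add _ _ _ y1 (hE.self _))⟩
        rintro rfl
        rw [zero_add] at huv
        exact y3 huv.symm
    · left
      exact mem_filter.2 ⟨mem_univ _, y, y1, hin⟩
  have e5 : q * #((univ.filter fun u : V => u ∈ U ∧ u ≠ 0).biUnion
      fun u => univ.filter fun x => E u x) ≤ Nat.card U * N := by
    calc _ ≤ q * ∑ u ∈ univ.filter (fun u : V => u ∈ U ∧ u ≠ 0), #(univ.filter fun x => E u x) :=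
          Nat.mul_le_mul_left _ card_biUnion_le
      _ = ∑ u ∈ univ.filter (fun u : V => u ∈ U ∧ u ≠ 0), q * Nat.card (VE hE u) := by
          rw [mul_sum]
          exact sum_congr rfl fun u _ => by rw [e1]
      _ ≤ ∑ _u ∈ univ.filter (fun u : V => u ∈ U ∧ u ≠ 0), N :=
          sum_le_sum fun u hu => hq u (mem_filter.1 hu).2.2
      _ = #(univ.filter (fun u : V => u ∈ U ∧ u ≠ 0)) * N := by rw [sum_const, smul_eq_mul]
      _ ≤ _ := by
          refine Nat.mul_le_mul_right _ ?_
          have : Fintype U := Fintype.ofFinite _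
          have h6 : #(univ.filter fun u : V => u ∈ U) = Nat.card U := by
            rw [Nat.card_eq_fintype_card, Fintype.card_subtype]
          rw [← h6]
          exact card_le_card fun u hu => by
            simp only [mem_filter, mem_univ, true_and] at hu ⊢
            exact hu.1
  calc q * Nat.card {z : V // Cov E z} ≤
      q * (#(univ.filter fun z : V => ∃ y, E z y ∧ y ∉ U ⊔ span (ZMod 2) {z}) +
        #((univ.filter fun u : V => u ∈ U ∧ u ≠ 0).biUnion
          fun u => univ.filter fun x => E u x)) := by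
        rw [← e3]
        exact Nat.mul_le_mul_left _ ((card_le_card e4).trans (card_union_le _ _))
    _ = q * Nat.card {z : V // ∃ y, E z y ∧ y ∉ U ⊔ span (ZMod 2) {z}} +
        q * #((univ.filter fun u : V => u ∈ U ∧ u ≠ 0).biUnion
          fun u => univ.filter fun x => E u x) := by rw [e2, mul_add]
    _ ≤ _ := Nat.add_le_add_left e5 _

/-- many tuples are good -/
theorem card_GT' (hE : Rln E) {q d : ℕ}
    (hq : ∀ u : V, u ≠ 0 → q * Nat.card (VE hE u) ≤ Nat.card V)
    (hc : Nat.card V ≤ 2 ^ d * Nat.card {z : V // Cov E z}) :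
    ∀ s : ℕ, 2 ^ (d + 1) * 4 ^ s ≤ q →
      Nat.card V ^ (s + 1) ≤ 2 ^ ((d + 1) * (s + 1)) * Nat.card {t : T V s // GT E s ⊤ t}
  | 0, _ => by
    have h1 : Nat.card {z : V // Cov E z} ≤ Nat.card {t : T V 0 // GT E 0 ⊤ t} := by
      refine Nat.card_le_card_of_injective
        (fun z : {z : V // Cov E z} => (⟨z.1, ?_⟩ : {t : T V 0 // GT E 0 ⊤ t})) ?_
      · obtain ⟨h0, y, y1, y2, y3⟩ := z.2
        exact ⟨_, le_top, h0, y, y1, y2, y3, rfl⟩
      · intro z z' h
        exact Subtype.ext (congrArg (fun x : {t : T V 0 // GT E 0 ⊤ t} => (x.1 : V)) h)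
    rw [zero_add, pow_one, mul_one]
    calc Nat.card V ≤ 2 ^ d * Nat.card {z : V // Cov E z} := hc
      _ ≤ 2 ^ (d + 1) * Nat.card {t : T V 0 // GT E 0 ⊤ t} :=
          Nat.mul_le_mul (Nat.pow_le_pow_right (by norm_num) (by omega)) h1
  | s + 1, hs => by
    classical
    have : Fintype V := Fintype.ofFinite V
    have : Fintype (T V s) := Fintype.ofFinite _
    have ih := card_GT' hE hq hc s (le_trans (Nat.mul_le_mul_left _
      (Nat.pow_le_pow_right (by norm_num) (by omega))) hs)
    set N := Nat.card V with hN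
    have hqpos : 0 < q := lt_of_lt_of_le (by positivity) hs
    let g : V × T V s → Prop := fun p => GT E (s + 1) ⊤ (show T V (s + 1) from p)
    let G : Finset (V × T V s) := univ.filter g
    have hG : Nat.card {t : T V (s + 1) // GT E (s + 1) ⊤ t} = #G := by
      have e : Nat.card {t : T V (s + 1) // GT E (s + 1) ⊤ t} =
        Nat.card {q : V × T V s // g q} := rfl
      rw [e, Nat.card_eq_fintype_card, Fintype.card_subtype]
    have hG' : #(univ.filter fun t : T V s => GT E s ⊤ t) =
        Nat.card {t : T V s // GT E s ⊤ t} := by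
      rw [Nat.card_eq_fintype_card, Fintype.card_subtype]
    have h1 : Nat.card {t : T V s // GT E s ⊤ t} * N ≤ 2 ^ (d + 1) * #G := by
      have e1 : ∑ t ∈ univ.filter (fun t : T V s => GT E s ⊤ t), #(G.filter fun p => p.2 = t) ≤
          #G := by
        rw [card_eq_sum_card_fiberwise (s := G) (f := Prod.snd) (t := univ)
          (fun _ _ => mem_univ _)]
        exact sum_le_sum_of_subset (subset_univ _)
      have e2 : ∑ _t ∈ univ.filter (fun t : T V s => GT E s ⊤ t), N ≤
          ∑ t ∈ univ.filter (fun t : T V s => GT E s ⊤ t),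
            2 ^ (d + 1) * #(G.filter fun p => p.2 = t) := by
        refine sum_le_sum fun t ht => ?_
        obtain ⟨U, -, hU⟩ := (mem_filter.1 ht).2
        obtain ⟨c1, -⟩ := Sp_card s t U hU
        have c3 : Nat.card {z : V // ∃ y, E z y ∧ y ∉ U ⊔ span (ZMod 2) {z}} ≤
            #(G.filter fun p => p.2 = t) := by
          rw [Nat.card_eq_fintype_card, Fintype.card_subtype]
          refine card_le_card_of_injOn (fun z => (z, t)) ?_ ?_
          · intro z hz
            obtain ⟨y, d1, d2⟩ := (mem_filter.1 (mem_coe.1 hz)).2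
            rw [mem_coe, mem_filter, mem_filter]
            exact ⟨⟨mem_univ _, _, le_top, U, hU, y, d1, d2, rfl⟩, rfl⟩
          · intro f _ g _ he
            exact congrArg Prod.fst he
        refine le_trans ?_ (Nat.mul_le_mul_left _ c3)
        have c4 := card_fine' hE hq U
        set fn := Nat.card {z : V // ∃ y, E z y ∧ y ∉ U ⊔ span (ZMod 2) {z}}
        set cv := Nat.card {z : V // Cov E z}
        have c5 : q * (2 * N) ≤ q * (2 ^ (d + 1) * fn + N) := by
          calc q * (2 * N) ≤ q * (2 * (2 ^ d * cv)) :=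
                Nat.mul_le_mul_left _ (Nat.mul_le_mul_left _ hc)
            _ = 2 ^ (d + 1) * (q * cv) := by rw [pow_succ]; ring
            _ ≤ 2 ^ (d + 1) * (q * fn + Nat.card U * N) := Nat.mul_le_mul_left _ c4
            _ ≤ 2 ^ (d + 1) * (q * fn + 4 ^ (s + 1) * N) :=
                Nat.mul_le_mul_left _ (Nat.add_le_add_left (Nat.mul_le_mul_right _ c1) _)
            _ = q * (2 ^ (d + 1) * fn) + (2 ^ (d + 1) * 4 ^ (s + 1)) * N := by ring
            _ ≤ q * (2 ^ (d + 1) * fn) + q * N :=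
                Nat.add_le_add_left (Nat.mul_le_mul_right _ hs) _
            _ = _ := by ring
        have := Nat.le_of_mul_le_mul_left c5 hqpos
        omega
      rw [sum_const, ← mul_sum, smul_eq_mul, hG'] at e2
      exact e2.trans (Nat.mul_le_mul_left _ e1)
    rw [hG]
    calc N ^ (s + 1 + 1) = N ^ (s + 1) * N := pow_succ _ _
      _ ≤ 2 ^ ((d + 1) * (s + 1)) * Nat.card {t : T V s // GT E s ⊤ t} * N :=
          Nat.mul_le_mul_right _ ih
      _ = 2 ^ ((d + 1) * (s + 1)) * (Nat.card {t : T V s // GT E s ⊤ t} * N) := by ring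
      _ ≤ 2 ^ ((d + 1) * (s + 1)) * (2 ^ (d + 1) * #G) := Nat.mul_le_mul_left _ h1
      _ = _ := by rw [← mul_assoc, ← pow_add]; ring_nf

/-- value groups of large index give many relations -/
theorem slope' (hE : Rln E) (s d : ℕ)
    (hq : ∀ u : V, u ≠ 0 → 2 ^ (d + 1 + 2 * s) * Nat.card (VE hE u) ≤ Nat.card V)
    (hc : Nat.card V ≤ 2 ^ d * Nat.card {z : V // Cov E z}) :
    Nat.card V ^ (s + 1) ≤
      2 ^ ((d + 1) * (s + 1) + s * (s + 3) + 2) * Nat.card (Rel (k := ZMod 2) E ⊤) := by
  classical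
  have : Fintype (Dual (ZMod 2) V) := Fintype.ofFinite _
  have h0 : 2 ^ (d + 1) * 4 ^ s ≤ 2 ^ (d + 1 + 2 * s) := by
    rw [pow_add 2 (d + 1) (2 * s), pow_mul]
    norm_num
  have h1 := card_GT' hE hq hc s h0
  have h2 := low (E := E) s ⊤
  have h3 := sumS_lt (E := E) s ⊤
  set N := Nat.card V
  set g₀ := Nat.card {t : T V s // GT E s ⊤ t}
  set r := Nat.card (Rel (k := ZMod 2) E ⊤)
  have hNs : 0 < N ^ s := pow_pos Nat.card_pos _
  have e1 : (4 : ℕ) ^ ee s = 2 ^ (s * (s + 3)) := by
    rw [← ee_eq s, pow_mul]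
    norm_num
  have h5 : N ^ s * N ^ (s + 1) ≤
      N ^ s * (2 ^ ((d + 1) * (s + 1) + s * (s + 3) + 2) * r) := by
    calc N ^ s * N ^ (s + 1) ≤ N ^ s * (2 ^ ((d + 1) * (s + 1)) * g₀) :=
          Nat.mul_le_mul_left _ h1
      _ = 2 ^ ((d + 1) * (s + 1)) * (g₀ * N ^ s) := by ring
      _ ≤ 2 ^ ((d + 1) * (s + 1)) * (4 ^ ee s * SumS E s ⊤) := Nat.mul_le_mul_left _ h2
      _ ≤ 2 ^ ((d + 1) * (s + 1)) * (4 ^ ee s * (3 * N ^ s * r)) :=
          Nat.mul_le_mul_left _ (Nat.mul_le_mul_left _ h3.le)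
      _ ≤ 2 ^ ((d + 1) * (s + 1)) * (4 ^ ee s * (4 * N ^ s * r)) := by
          refine Nat.mul_le_mul_left _ (Nat.mul_le_mul_left _ (Nat.mul_le_mul_right _
            (Nat.mul_le_mul_right _ (by norm_num))))
      _ = _ := by rw [e1, pow_add, pow_add]; ring
  exact Nat.le_of_mul_le_mul_left h5 hNs

end Pool.Agent.N908.FR2
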